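import Pool.Agent.Q273.V.Stm

/-!
# Project V, job CNT: primitive integral vectors near two complex directions

`prim_count` and its auxiliary lemmas are copied from `Pool/Agent/Results/MP_3ef321_nt/Cubic.lean`.
-/

set_option autoImplicit false

namespace Pool.Agent.Q190.V

/-- Determinant of two integer vectors. -/
def det (u v : ℤ × ℤ) : ℤ := u.1 * v.2 - u.2 * v.1

theorem det_self (u : ℤ × ℤ) : det u u = 0 := by unfold det; ring

theorem exists_mul_of_det_eq_zero {u w : ℤ × ℤ} (hu : Int.gcd u.1 u.2 = 1) (h : det u w = 0) :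
    ∃ k : ℤ, w = (k * u.1, k * u.2) := by
  obtain ⟨x, y⟩ := u
  obtain ⟨a, b⟩ := w
  simp only [det] at h hu
  have hb : (1 : ℤ) = x * Int.gcdA x y + y * Int.gcdB x y := by
    have := Int.gcd_eq_gcd_ab x y
    rw [hu] at this
    exact_mod_cast this
  refine ⟨a * Int.gcdA x y + b * Int.gcdB x y, ?_⟩
  have h1 : x * b = y * a := by linarith
  ext
  · show a = (a * Int.gcdA x y + b * Int.gcdB x y) * x
    calc a = a * (x * Int.gcdA x y + y * Int.gcdB x y) := by rw [← hb, mul_one]
      _ = a * Int.gcdA x y * x + (y * a) * Int.gcdB x y := by ring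
      _ = a * Int.gcdA x y * x + (x * b) * Int.gcdB x y := by rw [h1]
      _ = _ := by ring
  · show b = (a * Int.gcdA x y + b * Int.gcdB x y) * y
    calc b = b * (x * Int.gcdA x y + y * Int.gcdB x y) := by rw [← hb, mul_one]
      _ = (x * b) * Int.gcdA x y + b * Int.gcdB x y * y := by ring
      _ = (y * a) * Int.gcdA x y + b * Int.gcdB x y * y := by rw [h1]
      _ = _ := by ring

theorem prim_count (S : Finset (ℤ × ℤ)) (M : ℕ) (hprim : ∀ u ∈ S, Int.gcd u.1 u.2 = 1)
    (hdet : ∀ u ∈ S, ∀ v ∈ S, |det u v| ≤ M) : S.card ≤ 12 * M + 2 := by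
  classical
  rcases S.eq_empty_or_nonempty with rfl | hne
  · simp
  obtain ⟨u0, hu0⟩ := hne
  obtain ⟨v0, hv0, hmax⟩ := S.exists_max_image (fun v => |det u0 v|) ⟨u0, hu0⟩
  set m := |det u0 v0| with hm
  rcases (abs_nonneg (det u0 v0)).eq_or_lt with h0 | hpos
  · -- all parallel
    have hsub : S ⊆ {u0, (-u0.1, -u0.2)} := by
      intro v hv
      have h1 : det u0 v = 0 := by
        have := hmax v hv
        rw [hm, ← h0] at this
        exact abs_nonpos_iff.mp this
      obtain ⟨k, rfl⟩ := exists_mul_of_det_eq_zero (hprim u0 hu0) h1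
      have hg := hprim _ hv
      simp only at hg
      rw [Int.gcd_mul_left, hprim u0 hu0, mul_one] at hg
      rcases Int.natAbs_eq k with hk | hk
      · rw [hg] at hk
        subst hk
        simp
      · rw [hg] at hk
        subst hk
        simp
    calc S.card ≤ ({u0, (-u0.1, -u0.2)} : Finset (ℤ × ℤ)).card := Finset.card_le_card hsub
      _ ≤ 2 := Finset.card_le_two
      _ ≤ 12 * M + 2 := by omega
  · have hmM : m ≤ M := hdet u0 hu0 v0 hv0
    have hm1 : 1 ≤ m := hpos
    let f : ℤ × ℤ → ℤ × ℤ := fun v => (det u0 v, det v v0 / m)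
    have hinj : Set.InjOn f S := by
      intro v hv w hw hfw
      simp only [f, Prod.mk.injEq] at hfw
      obtain ⟨h1, h2⟩ := hfw
      have h3 : det u0 (w.1 - v.1, w.2 - v.2) = 0 := by
        have : det u0 (w.1 - v.1, w.2 - v.2) = det u0 w - det u0 v := by unfold det; ring
        rw [this, h1, sub_self]
      obtain ⟨k, hk⟩ := exists_mul_of_det_eq_zero (hprim u0 hu0) h3
      have hk1 : w.1 - v.1 = k * u0.1 := congrArg Prod.fst hk
      have hk2 : w.2 - v.2 = k * u0.2 := congrArg Prod.snd hk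
      have h4 : det w v0 = det v v0 + k * det u0 v0 := by
        have e1 : w.1 = v.1 + k * u0.1 := by linarith
        have e2 : w.2 = v.2 + k * u0.2 := by linarith
        unfold det
        rw [e1, e2]; ring
      have h5 : |det w v0 - det v v0| < m := by
        have a1 := Int.emod_add_mul_ediv (det w v0) m
        have a2 := Int.emod_add_mul_ediv (det v v0) m
        have b1 := Int.emod_nonneg (det w v0) (by omega : m ≠ 0)
        have b2 := Int.emod_nonneg (det v v0) (by omega : m ≠ 0)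
        have c1 := Int.emod_lt_of_pos (det w v0) (by omega : 0 < m)
        have c2 := Int.emod_lt_of_pos (det v v0) (by omega : 0 < m)
        rw [abs_lt]
        rw [← h2] at a1
        constructor <;> linarith
      have h6 : k = 0 := by
        by_contra hk0
        have : 1 ≤ |k| := Int.one_le_abs hk0
        rw [h4, add_sub_cancel_left, abs_mul, ← hm] at h5
        nlinarith
      subst h6
      ext
      · linarith
      · linarith
    have hmaps : ∀ v ∈ S, f v ∈ (Finset.Icc (-m) m) ×ˢ (Finset.Icc (-(M / m + 1)) (M / m)) := by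
      intro v hv
      rw [Finset.mem_product, Finset.mem_Icc, Finset.mem_Icc]
      have h1 := abs_le.mp (hmax v hv)
      have h2 := abs_le.mp (hdet v hv v0 hv0)
      refine ⟨h1, ?_, ?_⟩
      · show -((M : ℤ) / m + 1) ≤ det v v0 / m
        rw [Int.le_ediv_iff_mul_le (by omega)]
        have h3 : (M : ℤ) < (M / m + 1) * m := Int.lt_ediv_add_one_mul_self _ (by omega)
        nlinarith
      · show det v v0 / m ≤ M / m
        exact Int.ediv_le_ediv (by omega) h2.2
    have hcard := Finset.card_le_card_of_injOn f hmaps hinj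
    rw [Finset.card_product, Int.card_Icc, Int.card_Icc] at hcard
    have e1 : ((m + 1 - -m).toNat : ℤ) = 2 * m + 1 := by
      rw [Int.toNat_of_nonneg (by omega)]; ring
    have hMm : (0 : ℤ) ≤ M / m := Int.ediv_nonneg (by omega) (by omega)
    have e2 : (((M : ℤ) / m + 1 - -((M : ℤ) / m + 1)).toNat : ℤ) = 2 * (M / m) + 2 := by
      rw [Int.toNat_of_nonneg (by omega)]; ring
    have h7 : (S.card : ℤ) ≤ (2 * m + 1) * (2 * (M / m) + 2) := by
      calc (S.card : ℤ) ≤ ((m + 1 - -m).toNat * ((M : ℤ) / m + 1 - -((M : ℤ) / m + 1)).toNat : ℕ) := by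
            exact_mod_cast hcard
        _ = (2 * m + 1) * (2 * (M / m) + 2) := by rw [Nat.cast_mul, e1, e2]
    have h8 : (M : ℤ) / m * m ≤ M := Int.ediv_mul_le _ (by omega)
    have h9 : (S.card : ℤ) ≤ 12 * M + 2 := by
      calc (S.card : ℤ) ≤ (2 * m + 1) * (2 * (M / m) + 2) := h7
        _ ≤ (3 * m) * (2 * (M / m) + 2) := by
            apply mul_le_mul_of_nonneg_right (by omega) (by omega)
        _ = 6 * (M / m * m) + 6 * m := by ring
        _ ≤ 6 * M + 6 * M := by linarith
        _ ≤ 12 * M + 2 := by linarith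
    exact_mod_cast h9

theorem cnt : Q273.V.S_CNT := by
  intro θ₁ θ₂ hθ A B hA hB S hS
  have hd : 0 < ‖θ₁ - θ₂‖ := norm_pos_iff.2 (sub_ne_zero.2 hθ)
  set Z : ℝ := 2 * (A * B / ‖θ₁ - θ₂‖) with hZ
  have hZ0 : 0 ≤ Z := by positivity
  have h := prim_count S ⌊Z⌋₊ (fun u hu => Int.isCoprime_iff_gcd_eq_one.1 (hS u hu).1) (by
    intro u hu v hv
    obtain ⟨_, hu1, hu2⟩ := hS u hu
    obtain ⟨_, hv1, hv2⟩ := hS v hv
    have key : (θ₁ - θ₂) * ((det u v : ℤ) : ℂ) = ((u.1 : ℂ) - θ₁ * u.2) * ((v.1 : ℂ) - θ₂ * v.2) -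
        ((u.1 : ℂ) - θ₂ * u.2) * ((v.1 : ℂ) - θ₁ * v.2) := by
      unfold det
      push_cast
      ring
    have h1 : ‖θ₁ - θ₂‖ * ‖((det u v : ℤ) : ℂ)‖ ≤ 2 * (A * B) := by
      rw [← norm_mul, key]
      refine (norm_sub_le _ _).trans ?_
      rw [norm_mul, norm_mul]
      have a1 : ‖(u.1 : ℂ) - θ₁ * u.2‖ * ‖(v.1 : ℂ) - θ₂ * v.2‖ ≤ A * B :=
        mul_le_mul hu1 hv2 (norm_nonneg _) hA.le
      have a2 : ‖(u.1 : ℂ) - θ₂ * u.2‖ * ‖(v.1 : ℂ) - θ₁ * v.2‖ ≤ B * A :=
        mul_le_mul hu2 hv1 (norm_nonneg _) hB.le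
      linarith
    have h2 : ‖((det u v : ℤ) : ℂ)‖ ≤ Z := by
      rw [hZ, ← mul_div_assoc, le_div_iff₀ hd]
      linarith
    rw [Complex.norm_intCast] at h2
    have h3 : |det u v| = ((|det u v|).toNat : ℤ) := (Int.toNat_of_nonneg (abs_nonneg _)).symm
    rw [h3]
    have h4 : (((|det u v|).toNat : ℕ) : ℝ) ≤ Z := by
      have h5 : (((|det u v|).toNat : ℕ) : ℝ) = |((det u v : ℤ) : ℝ)| := by
        have : (((|det u v|).toNat : ℤ) : ℝ) = ((|det u v| : ℤ) : ℝ) := by rw [← h3]
        push_cast at this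
        exact this
      rw [h5]
      exact h2
    exact_mod_cast Nat.le_floor h4)
  have h1 : (S.card : ℝ) ≤ 12 * (⌊Z⌋₊ : ℝ) + 2 := by exact_mod_cast h
  have h2 : (⌊Z⌋₊ : ℝ) ≤ Z := Nat.floor_le hZ0
  rw [hZ] at h2
  linarith

end Pool.Agent.Q190.V
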