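import Pool.Agent.Q273.V.Stm2

/-!
# Project V, job DMIN: the discriminants of the cubic forms of a cubic field
-/

set_option autoImplicit false

namespace Pool.Agent.Q190.V

open Polynomial NumberField Q273.V Module

theorem int_of_cubic {K : Type} [Field K] {y : K} {p q r : ℤ} (h : y ^ 3 + p * y ^ 2 + q * y + r = 0) :
    IsIntegral ℤ y := by
  refine ⟨X ^ 3 + C p * X ^ 2 + C q * X + C r, ?_, ?_⟩
  · monicity!
  · simp only [eval₂_add, eval₂_mul, eval₂_pow, eval₂_X, eval₂_C]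
    exact h

/-- Vieta -/
theorem vieta {a b c d x0 x1 x2 : ℂ} (h0 : a * x0 ^ 3 + b * x0 ^ 2 + c * x0 + d = 0)
    (h1 : a * x1 ^ 3 + b * x1 ^ 2 + c * x1 + d = 0) (h2 : a * x2 ^ 3 + b * x2 ^ 2 + c * x2 + d = 0)
    (h01 : x0 ≠ x1) (h02 : x0 ≠ x2) (h12 : x1 ≠ x2) :
    b = -(a * (x0 + x1 + x2)) ∧ c = a * (x0 * x1 + x0 * x2 + x1 * x2) ∧ d = -(a * (x0 * x1 * x2)) := by
  have e1 : a * (x0 ^ 2 + x0 * x1 + x1 ^ 2) + b * (x0 + x1) + c = 0 := by
    apply mul_left_cancel₀ (sub_ne_zero.2 h01)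
    linear_combination h0 - h1
  have e2 : a * (x0 ^ 2 + x0 * x2 + x2 ^ 2) + b * (x0 + x2) + c = 0 := by
    apply mul_left_cancel₀ (sub_ne_zero.2 h02)
    linear_combination h0 - h2
  have e3 : a * (x0 + x1 + x2) + b = 0 := by
    apply mul_left_cancel₀ (sub_ne_zero.2 h12)
    linear_combination e1 - e2
  have hb : b = -(a * (x0 + x1 + x2)) := by linear_combination e3
  have hc : c = a * (x0 * x1 + x0 * x2 + x1 * x2) := by
    rw [hb] at e1
    linear_combination e1
  refine ⟨hb, hc, ?_⟩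
  rw [hb, hc] at h0
  linear_combination h0

/-- **DMIN** -/
theorem dmin : S_DMIN := by
  classical
  intro K _ _ hK a b c d x hx ha hrel
  have haK : (a : K) ≠ 0 := by exact_mod_cast ha
  set w : K := a * x with hw
  set th : K := a * x ^ 2 + b * x with hth
  have hwi : IsIntegral ℤ w := by
    apply int_of_cubic (p := b) (q := a * c) (r := a ^ 2 * d)
    push_cast
    rw [hw]
    linear_combination ((a : K) ^ 2) * hrel
  have hui : IsIntegral ℤ (th + c) := by
    apply int_of_cubic (p := -c) (q := b * d) (r := -(a * d ^ 2))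
    push_cast
    rw [hth]
    linear_combination ((a : K) * (x * (a * x ^ 2 + b * x + c) - d) + b * (a * x ^ 2 + b * x + c)) * hrel
  have hti : IsIntegral ℤ th := by
    have h1 : th = (th + c) - ((c : ℤ) : K) := by ring
    rw [h1]
    exact hui.sub (isIntegral_intCast c)
  set bb : Fin 3 → 𝓞 K := ![1, ⟨w, hwi⟩, ⟨th, hti⟩] with hbb
  set bq : Fin 3 → K := fun i => (bb i : K) with hbq
  have hq0 : bq 0 = 1 := by simp [hbq, hbb]
  have hq1 : bq 1 = w := rfl
  have hq2 : bq 2 = th := rfl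
  -- the index
  have hfr : finrank ℤ (𝓞 K) = 3 := by rw [RingOfIntegers.rank]; exact hK
  set B : Basis (Fin 3) ℤ (𝓞 K) := finBasisOfFinrankEq ℤ (𝓞 K) hfr with hB
  have hdB : Algebra.discr ℤ B = NumberField.discr K := NumberField.discr_eq_discr K B
  have hidx : Algebra.discr ℤ bb = (B.toMatrix bb).det ^ 2 * NumberField.discr K := by
    rw [← hdB, ← Algebra.discr_of_matrix_vecMul]
    congr 1
    exact (B.toMatrix_map_vecMul bb).symm
  have hcast : ((Algebra.discr ℤ bb : ℤ) : ℚ) = Algebra.discr ℚ bq := by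
    rw [Algebra.discr_def, Algebra.discr_def]
    have e1 := RingHom.map_det (Int.castRingHom ℚ) (Algebra.traceMatrix ℤ bb)
    rw [show (((Algebra.traceMatrix ℤ bb).det : ℤ) : ℚ) =
      Int.castRingHom ℚ (Algebra.traceMatrix ℤ bb).det from rfl, e1]
    congr 1
    ext i j
    rw [RingHom.mapMatrix_apply, Matrix.map_apply, Algebra.traceMatrix_apply, Algebra.traceMatrix_apply,
      Algebra.traceForm_apply, Algebra.traceForm_apply]
    show ((Algebra.trace ℤ (𝓞 K) (bb i * bb j) : ℤ) : ℚ) = _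
    rw [Algebra.coe_trace_int]
    rfl
  -- the embeddings
  have hcard : Fintype.card (K →ₐ[ℚ] ℂ) = 3 := by rw [AlgHom.card, hK]
  let e : Fin 3 ≃ (K →ₐ[ℚ] ℂ) := (Fintype.equivFinOfCardEq hcard).symm
  have hD := Algebra.discr_eq_det_embeddingsMatrixReindex_pow_two ℚ ℂ bq e
  have hinj : Function.Injective fun φ : K →ₐ[ℚ] ℂ => φ x :=
    (Field.primitive_element_iff_algHom_eq_of_eval' ℚ ℂ (fun y => IsAlgClosed.splits _) x).1 hx
  have hne : ∀ i j : Fin 3, i ≠ j → e i x ≠ e j x := fun i j hij h => hij (e.injective (hinj h))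
  have hroot : ∀ i : Fin 3, (a : ℂ) * (e i x) ^ 3 + b * (e i x) ^ 2 + c * (e i x) + d = 0 := by
    intro i
    have := congrArg (e i) hrel
    simpa using this
  obtain ⟨vb, vc, vd⟩ := vieta (hroot 0) (hroot 1) (hroot 2) (hne 0 1 (by decide)) (hne 0 2 (by decide))
    (hne 1 2 (by decide))
  set x0 := e 0 x with hx0
  set x1 := e 1 x with hx1
  set x2 := e 2 x with hx2
  have hdet : (Algebra.embeddingsMatrixReindex ℚ ℂ bq e).det ^ 2 =
      (a : ℂ) ^ 4 * ((x0 - x1) * (x0 - x2) * (x1 - x2)) ^ 2 := by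
    have hent : ∀ i j : Fin 3, Algebra.embeddingsMatrixReindex ℚ ℂ bq e i j = e j (bq i) := fun i j => rfl
    rw [Matrix.det_fin_three]
    simp only [hent, hq0, hq1, hq2, hw, hth, map_one, map_mul, map_add, map_pow, map_intCast]
    simp only [← hx0, ← hx1, ← hx2]
    ring
  have hDD : ((D4 a b c d : ℤ) : ℂ) = (a : ℂ) ^ 4 * ((x0 - x1) * (x0 - x2) * (x1 - x2)) ^ 2 := by
    unfold D4
    push_cast
    rw [vb, vc, vd]
    ring
  have hfin : ((Algebra.discr ℤ bb : ℤ) : ℂ) = ((D4 a b c d : ℤ) : ℂ) := by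
    rw [hDD, ← hdet, ← hD, ← hcast]
    simp
  have hfin' : D4 a b c d = Algebra.discr ℤ bb := by exact_mod_cast hfin.symm
  refine ⟨(B.toMatrix bb).det, ?_, ?_⟩
  · intro h
    rw [hidx, h] at hfin'
    have h0 : D4 a b c d = 0 := by rw [hfin']; ring
    rw [h0, Int.cast_zero] at hDD
    have haC : (a : ℂ) ≠ 0 := by exact_mod_cast ha
    exact (mul_ne_zero (pow_ne_zero _ haC) (pow_ne_zero _ (mul_ne_zero (mul_ne_zero
      (sub_ne_zero.2 (hne 0 1 (by decide))) (sub_ne_zero.2 (hne 0 2 (by decide))))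
      (sub_ne_zero.2 (hne 1 2 (by decide)))))) hDD.symm
  · rw [hfin', hidx]

end Pool.Agent.Q190.V
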