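import Pool.Agent.Q273.V.Stm2

/-!
# Project V, jobs DRT, CONT, INV3: discriminants of cubic minimal polynomials
-/

set_option autoImplicit false

namespace Pool.Agent.Q190.V

open Polynomial NumberField Q273.V

theorem cub_coeff {R : Type*} [CommRing R] (a b c d : R) :
    (C a * X ^ 3 + C b * X ^ 2 + C c * X + C d : R[X]).coeff 3 = a ∧
    (C a * X ^ 3 + C b * X ^ 2 + C c * X + C d : R[X]).coeff 2 = b ∧
    (C a * X ^ 3 + C b * X ^ 2 + C c * X + C d : R[X]).coeff 1 = c ∧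
    (C a * X ^ 3 + C b * X ^ 2 + C c * X + C d : R[X]).coeff 0 = d := by
  refine ⟨?_, ?_, ?_, ?_⟩ <;> simp [coeff_X, coeff_C, coeff_X_pow]

/-- **DRT** -/
theorem drt (hmin : S_MIN) : S_DRT := by
  classical
  intro K _ _ h3 e x f hf
  obtain ⟨h1, hinj, -, hlc, -⟩ := hmin K 3 x f (by norm_num) h3 hf
  set a : ℂ := (f.leadingCoeff : ℂ) with ha
  set x0 := e 0 x with hx0
  set x1 := e 1 x with hx1
  set x2 := e 2 x with hx2
  have hprod : ∏ σ : K →+* ℂ, (X - C (σ x)) = (X - C x0) * (X - C x1) * (X - C x2) := by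
    rw [← Equiv.prod_comp e, Fin.prod_univ_three]
  rw [hprod] at h1
  have hexp : C a * ((X - C x0) * (X - C x1) * (X - C x2)) =
      C a * X ^ 3 + C (-(a * (x0 + x1 + x2))) * X ^ 2 + C (a * (x0 * x1 + x0 * x2 + x1 * x2)) * X +
        C (-(a * (x0 * x1 * x2))) := by
    simp only [C_neg, C_mul, C_add]
    ring
  rw [hexp] at h1
  obtain ⟨k3, k2, k1, k0⟩ := cub_coeff a (-(a * (x0 + x1 + x2))) (a * (x0 * x1 + x0 * x2 + x1 * x2))
    (-(a * (x0 * x1 * x2)))
  rw [← h1, coeff_map] at k3 k2 k1 k0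
  have hc3 : (f.coeff 3 : ℂ) = a := k3
  have hc2 : (f.coeff 2 : ℂ) = -(a * (x0 + x1 + x2)) := k2
  have hc1 : (f.coeff 1 : ℂ) = a * (x0 * x1 + x0 * x2 + x1 * x2) := k1
  have hc0 : (f.coeff 0 : ℂ) = -(a * (x0 * x1 * x2)) := k0
  have hD : ((D3 f : ℤ) : ℂ) = a ^ 4 * ((x0 - x1) * (x0 - x2) * (x1 - x2)) ^ 2 := by
    unfold D3 D4
    push_cast
    rw [hc3, hc2, hc1, hc0]
    ring
  have hne : ∀ i j : Fin 3, i ≠ j → e i x ≠ e j x := by
    intro i j hij h
    exact hij (e.injective (hinj h))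
  have ha0 : a ≠ 0 := by
    rw [ha]
    unfold lc at hlc
    intro h
    have : (f.leadingCoeff : ℤ) = 0 := by exact_mod_cast h
    rw [this] at hlc
    norm_num at hlc
  have hnorm : |(D3 f : ℝ)| = ‖((D3 f : ℤ) : ℂ)‖ := (Complex.norm_intCast _).symm
  have hlca : lc f = ‖a‖ := by
    rw [ha, Complex.norm_intCast]
    rfl
  constructor
  · rw [hnorm, hD, hlca]
    simp only [norm_mul, norm_pow]
  · have hD0 : D3 f ≠ 0 := by
      intro h
      rw [h, Int.cast_zero] at hD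
      have h01 : x0 - x1 ≠ 0 := sub_ne_zero.2 (hne 0 1 (by decide))
      have h02 : x0 - x2 ≠ 0 := sub_ne_zero.2 (hne 0 2 (by decide))
      have h12 : x1 - x2 ≠ 0 := sub_ne_zero.2 (hne 1 2 (by decide))
      exact (mul_ne_zero (pow_ne_zero _ ha0) (pow_ne_zero _ (mul_ne_zero (mul_ne_zero h01 h02) h12))) hD.symm
    have : 1 ≤ |D3 f| := Int.one_le_abs hD0
    exact_mod_cast this

/-- integral cubic polynomials with the zero `x` are multiples of the minimal polynomial -/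
theorem mult_of_root {K : Type} [Field K] [CharZero K] {x : K} {f : ℤ[X]} (hf : IsMin 3 f x) {h3 h2 h1 h0 : ℤ}
    (h : (h3 : K) * x ^ 3 + h2 * x ^ 2 + h1 * x + h0 = 0) :
    ∃ m : ℤ, h3 = m * f.coeff 3 ∧ h2 = m * f.coeff 2 ∧ h1 = m * f.coeff 1 ∧ h0 = m * f.coeff 0 := by
  obtain ⟨hirr, hdeg, hroot⟩ := hf
  have hprim : f.IsPrimitive := hirr.isPrimitive (by rw [hdeg]; norm_num)
  have hirrQ : Irreducible (f.map (Int.castRingHom ℚ)) :=
    (IsPrimitive.Int.irreducible_iff_irreducible_map_cast hprim).1 hirr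
  set H : ℤ[X] := C h3 * X ^ 3 + C h2 * X ^ 2 + C h1 * X + C h0 with hH
  have hHroot : aeval x H = 0 := by
    rw [hH]
    simpa using h
  have hrootQ : aeval x (f.map (Int.castRingHom ℚ)) = 0 := by
    have : aeval x (f.map (Int.castRingHom ℚ)) = aeval x f := aeval_map_algebraMap ℚ x f
    rw [this, hroot]
  have hHQ : aeval x (H.map (Int.castRingHom ℚ)) = 0 := by
    have : aeval x (H.map (Int.castRingHom ℚ)) = aeval x H := aeval_map_algebraMap ℚ x H
    rw [this, hHroot]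
  have hdvdQ : f.map (Int.castRingHom ℚ) ∣ H.map (Int.castRingHom ℚ) := by
    have hint : IsIntegral ℚ x := by
      have : IsAlgebraic ℚ x := ⟨f.map (Int.castRingHom ℚ), hirrQ.ne_zero, hrootQ⟩
      exact this.isIntegral
    have h1 : minpoly ℚ x ∣ f.map (Int.castRingHom ℚ) := minpoly.dvd ℚ x hrootQ
    have hass : Associated (minpoly ℚ x) (f.map (Int.castRingHom ℚ)) :=
      (minpoly.irreducible hint).associated_of_dvd hirrQ h1
    exact hass.symm.dvd.trans (minpoly.dvd ℚ x hHQ)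
  have hdvd : f ∣ H := by
    rcases eq_or_ne H 0 with h0 | h0
    · rw [h0]
      exact dvd_zero _
    · have hc : H.content ≠ 0 := fun h => h0 (content_eq_zero_iff.1 h)
      have e1 := H.eq_C_content_mul_primPart
      have e2 : H.map (Int.castRingHom ℚ) = C ((H.content : ℤ) : ℚ) * H.primPart.map (Int.castRingHom ℚ) := by
        conv_lhs => rw [e1]
        rw [Polynomial.map_mul, map_C]
        rfl
      rw [e2] at hdvdQ
      have hu : IsUnit (C ((H.content : ℤ) : ℚ) : ℚ[X]) :=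
        isUnit_C.2 (isUnit_iff_ne_zero.2 (by exact_mod_cast hc))
      have h5 := hu.dvd_mul_left.1 hdvdQ
      have h6 := (IsPrimitive.Int.dvd_iff_map_cast_dvd_map_cast f H.primPart hprim).2 h5
      exact h6.trans (primPart_dvd H)
  obtain ⟨k, hk⟩ := hdvd
  have hHdeg : H.natDegree ≤ 3 := by
    rw [hH]
    compute_degree
  have hkC : ∃ m : ℤ, k = C m := by
    rcases eq_or_ne k 0 with h0 | h0
    · exact ⟨0, by rw [h0, C_0]⟩
    · have hf0 : f ≠ 0 := hirr.ne_zero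
      have h4 : H.natDegree = f.natDegree + k.natDegree := by rw [hk, natDegree_mul hf0 h0]
      have h5 : k.natDegree = 0 := by omega
      exact ⟨k.coeff 0, eq_C_of_natDegree_eq_zero h5⟩
  obtain ⟨m, rfl⟩ := hkC
  rw [mul_comm] at hk
  obtain ⟨k3, k2, k1, k0⟩ := cub_coeff h3 h2 h1 h0
  rw [← hH, hk, coeff_C_mul] at k3 k2 k1 k0
  exact ⟨m, k3.symm, k2.symm, k1.symm, k0.symm⟩

/-- the coefficients of a cubic minimal polynomial are coprime -/
theorem coeff_gcd {K : Type} [Field K] {x : K} {f : ℤ[X]} (hf : IsMin 3 f x) :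
    Int.gcd (Int.gcd (f.coeff 3) (f.coeff 2)) (Int.gcd (f.coeff 1) (f.coeff 0)) = 1 := by
  obtain ⟨hirr, hdeg, hroot⟩ := hf
  have hprim : f.IsPrimitive := hirr.isPrimitive (by rw [hdeg]; norm_num)
  set g : ℕ := Int.gcd (Int.gcd (f.coeff 3) (f.coeff 2)) (Int.gcd (f.coeff 1) (f.coeff 0)) with hg
  have g1 : (g : ℤ) ∣ (Int.gcd (f.coeff 3) (f.coeff 2) : ℤ) := Int.gcd_dvd_left ..
  have g2 : (g : ℤ) ∣ (Int.gcd (f.coeff 1) (f.coeff 0) : ℤ) := Int.gcd_dvd_right ..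
  have d3 : (g : ℤ) ∣ f.coeff 3 := g1.trans (Int.gcd_dvd_left ..)
  have d2 : (g : ℤ) ∣ f.coeff 2 := g1.trans (Int.gcd_dvd_right ..)
  have d1 : (g : ℤ) ∣ f.coeff 1 := g2.trans (Int.gcd_dvd_left ..)
  have d0 : (g : ℤ) ∣ f.coeff 0 := g2.trans (Int.gcd_dvd_right ..)
  have h1 : C (g : ℤ) ∣ f := by
    rw [C_dvd_iff_dvd_coeff]
    intro i
    rcases Nat.lt_or_ge 3 i with h | h
    · rw [coeff_eq_zero_of_natDegree_lt (by omega)]
      exact dvd_zero _
    · interval_cases i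
      · exact d0
      · exact d1
      · exact d2
      · exact d3
  have h2 := hprim (g : ℤ) h1
  rw [Int.isUnit_iff] at h2
  omega

/-- **CONT** -/
theorem cont : S_CONT := by
  intro K _ _ _ a b c d α β δ z f ha hα hδ hz hf
  have hα0 : (α : K) ≠ 0 := by
    have : α ≠ 0 := by omega
    exact_mod_cast this
  set x : K := ((δ : K) * z - β) / α with hx
  have hxz : (α : K) * x + β = δ * z := by
    rw [hx]
    field_simp
    ring
  have hroot : ((a * α ^ 3 : ℤ) : K) * x ^ 3 + ((α ^ 2 * (3 * a * β + b * δ) : ℤ) : K) * x ^ 2 +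
      ((α * (3 * a * β ^ 2 + 2 * b * β * δ + c * δ ^ 2) : ℤ) : K) * x +
      ((a * β ^ 3 + b * β ^ 2 * δ + c * β * δ ^ 2 + d * δ ^ 3 : ℤ) : K) = 0 := by
    have e1 : ((a * α ^ 3 : ℤ) : K) * x ^ 3 + ((α ^ 2 * (3 * a * β + b * δ) : ℤ) : K) * x ^ 2 +
      ((α * (3 * a * β ^ 2 + 2 * b * β * δ + c * δ ^ 2) : ℤ) : K) * x +
      ((a * β ^ 3 + b * β ^ 2 * δ + c * β * δ ^ 2 + d * δ ^ 3 : ℤ) : K) =
      (a : K) * ((α : K) * x + β) ^ 3 + b * ((α : K) * x + β) ^ 2 * δ + c * ((α : K) * x + β) * δ ^ 2 + d * δ ^ 3 := by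
      push_cast
      ring
    rw [e1, hxz]
    have e2 : (a : K) * (δ * z) ^ 3 + b * (δ * z) ^ 2 * δ + c * (δ * z) * δ ^ 2 + d * δ ^ 3 =
        δ ^ 3 * ((a : K) * z ^ 3 + b * z ^ 2 + c * z + d) := by ring
    rw [e2, hz, mul_zero]
  obtain ⟨m, h3, h2, h1, h0⟩ := mult_of_root hf hroot
  have hct : ct a b c d α β δ = m.natAbs := by
    unfold ct
    rw [h3, h2, h1, h0, Int.gcd_mul_left, Int.gcd_mul_left]
    push_cast
    rw [Int.gcd_mul_left]
    simp [coeff_gcd hf, Int.natAbs_abs]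
  have hct4 : ((ct a b c d α β δ : ℕ) : ℤ) ^ 4 = m ^ 4 := by
    rw [hct, Int.natCast_natAbs]
    have : |m| ^ 4 = (|m| ^ 2) ^ 2 := by ring
    rw [this, sq_abs]
    ring
  rw [hct4]
  have hD : D4 (m * f.coeff 3) (m * f.coeff 2) (m * f.coeff 1) (m * f.coeff 0) = (α * δ) ^ 6 * D4 a b c d := by
    rw [← h3, ← h2, ← h1, ← h0]
    unfold D4
    ring
  rw [← hD]
  unfold D3 D4
  ring

theorem inv3_aux {K : Type} [Field K] [CharZero K] {x y : K} {f g : ℤ[X]} (hf : IsMin 3 f x) (hg : IsMin 3 g y)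
    (h : Eqv x y) : ∃ m : ℤ, D3 f = m ^ 4 * D3 g := by
  obtain ⟨p, q, r, t, hdet, hne, hy⟩ := h
  have hfx : (f.coeff 3 : K) * x ^ 3 + f.coeff 2 * x ^ 2 + f.coeff 1 * x + f.coeff 0 = 0 := by
    have h1 := hf.2.2
    rw [aeval_eq_sum_range, hf.2.1] at h1
    simp only [Finset.sum_range_succ, Finset.range_zero, Finset.sum_empty] at h1
    simp only [zsmul_eq_mul, pow_zero, mul_one, pow_one, zero_add] at h1
    rw [← h1]
    ring
  have hdetK : (p : K) * t - q * r = 1 := by exact_mod_cast hdet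
  -- `x = (t y - q) / (- r y + p)`
  set s : K := (r : K) * x + t with hs
  have hys : y * s = p * x + q := by
    rw [hy]
    field_simp
  have e1 : (t * y - q) * s = x := by
    have : (t * y - q) * s = t * (y * s) - q * s := by ring
    rw [this, hys, hs]
    linear_combination x * hdetK
  have e2 : (-r * y + p) * s = 1 := by
    have : (-r * y + p) * s = -r * (y * s) + p * s := by ring
    rw [this, hys, hs]
    linear_combination hdetK
  have hroot : ((f.coeff 3 * t ^ 3 - f.coeff 2 * t ^ 2 * r + f.coeff 1 * t * r ^ 2 - f.coeff 0 * r ^ 3 : ℤ) : K) * y ^ 3 +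
      ((-3 * f.coeff 3 * t ^ 2 * q + f.coeff 2 * (t ^ 2 * p + 2 * t * q * r) +
        f.coeff 1 * (-2 * t * r * p - q * r ^ 2) + 3 * f.coeff 0 * r ^ 2 * p : ℤ) : K) * y ^ 2 +
      ((3 * f.coeff 3 * t * q ^ 2 + f.coeff 2 * (-2 * t * q * p - r * q ^ 2) +
        f.coeff 1 * (t * p ^ 2 + 2 * q * r * p) - 3 * f.coeff 0 * r * p ^ 2 : ℤ) : K) * y +
      ((-f.coeff 3 * q ^ 3 + f.coeff 2 * q ^ 2 * p - f.coeff 1 * q * p ^ 2 + f.coeff 0 * p ^ 3 : ℤ) : K) = 0 := by
    have e3 : (((f.coeff 3 * t ^ 3 - f.coeff 2 * t ^ 2 * r + f.coeff 1 * t * r ^ 2 - f.coeff 0 * r ^ 3 : ℤ) : K) * y ^ 3 +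
      ((-3 * f.coeff 3 * t ^ 2 * q + f.coeff 2 * (t ^ 2 * p + 2 * t * q * r) +
        f.coeff 1 * (-2 * t * r * p - q * r ^ 2) + 3 * f.coeff 0 * r ^ 2 * p : ℤ) : K) * y ^ 2 +
      ((3 * f.coeff 3 * t * q ^ 2 + f.coeff 2 * (-2 * t * q * p - r * q ^ 2) +
        f.coeff 1 * (t * p ^ 2 + 2 * q * r * p) - 3 * f.coeff 0 * r * p ^ 2 : ℤ) : K) * y +
      ((-f.coeff 3 * q ^ 3 + f.coeff 2 * q ^ 2 * p - f.coeff 1 * q * p ^ 2 + f.coeff 0 * p ^ 3 : ℤ) : K)) * s ^ 3 =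
      (f.coeff 3 : K) * ((t * y - q) * s) ^ 3 + f.coeff 2 * ((t * y - q) * s) ^ 2 * ((-r * y + p) * s) +
      f.coeff 1 * ((t * y - q) * s) * ((-r * y + p) * s) ^ 2 + f.coeff 0 * ((-r * y + p) * s) ^ 3 := by
      push_cast
      ring
    rw [e1, e2] at e3
    have e4 : (f.coeff 3 : K) * x ^ 3 + f.coeff 2 * x ^ 2 * 1 + f.coeff 1 * x * 1 ^ 2 + f.coeff 0 * 1 ^ 3 = 0 := by
      rw [← hfx]
      ring
    rw [e4] at e3
    exact (mul_eq_zero.1 e3).resolve_right (pow_ne_zero _ hne)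
  obtain ⟨m, h3, h2, h1, h0⟩ := mult_of_root hg hroot
  refine ⟨m, ?_⟩
  have hD : D4 (m * g.coeff 3) (m * g.coeff 2) (m * g.coeff 1) (m * g.coeff 0) =
      (p * t - q * r) ^ 6 * D4 (f.coeff 3) (f.coeff 2) (f.coeff 1) (f.coeff 0) := by
    rw [← h3, ← h2, ← h1, ← h0]
    unfold D4
    ring
  rw [hdet, one_pow, one_mul] at hD
  unfold D3
  rw [← hD]
  unfold D4
  ring

theorem eqv_symm {K : Type} [Field K] [CharZero K] {x y : K} (h : Eqv x y) : Eqv y x := by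
  obtain ⟨p, q, r, t, hdet, hne, hy⟩ := h
  have hdetK : (p : K) * t - q * r = 1 := by exact_mod_cast hdet
  set s : K := (r : K) * x + t with hs
  have hys : y * s = p * x + q := by
    rw [hy]
    field_simp
  have e1 : (t * y - q) * s = x := by
    have : (t * y - q) * s = t * (y * s) - q * s := by ring
    rw [this, hys, hs]
    linear_combination x * hdetK
  have e2 : (-r * y + p) * s = 1 := by
    have : (-r * y + p) * s = -r * (y * s) + p * s := by ring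
    rw [this, hys, hs]
    linear_combination hdetK
  have hne2 : -(r : K) * y + p ≠ 0 := left_ne_zero_of_mul_eq_one e2
  refine ⟨t, -q, -r, p, by linarith, by push_cast; exact hne2, ?_⟩
  push_cast
  rw [eq_div_iff hne2, ← e1]
  have : (t * y - q) * s * (-(r : K) * y + p) = (t * y - q) * ((-(r : K) * y + p) * s) := by ring
  rw [this, e2]
  ring

/-- **INV3** -/
theorem inv3 : S_INV3 := by
  intro K _ _ _ x y f g hf hg h
  obtain ⟨m, hm⟩ := inv3_aux hf hg h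
  obtain ⟨m', hm'⟩ := inv3_aux hg hf (eqv_symm h)
  by_cases h0 : D3 f = 0
  · rw [h0, mul_zero] at hm'
    rw [h0, hm']
  · have h1 : D3 f * 1 = D3 f * (m ^ 4 * m' ^ 4) := by
      rw [mul_one]
      calc D3 f = m ^ 4 * D3 g := hm
        _ = m ^ 4 * (m' ^ 4 * D3 f) := by rw [← hm']
        _ = _ := by ring
    have h2 : 1 = m ^ 4 * m' ^ 4 := mul_left_cancel₀ h0 h1
    have h3 : m ^ 4 = 1 := by
      have h4 : IsUnit (m ^ 4) := IsUnit.of_mul_eq_one _ h2.symm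
      rcases Int.isUnit_iff.1 h4 with h5 | h5
      · exact h5
      · have : 0 ≤ m ^ 4 := by positivity
        omega
    rw [hm, h3, one_mul]

end Pool.Agent.Q190.V
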