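import Pool.Agent.Q273.V.Stm

/-!
# Project V, job PACK: separated triples
-/

set_option autoImplicit false

namespace Pool.Agent.Q190.V

open Finset

theorem floor_close {a b : ℝ} (h : ⌊a⌋ = ⌊b⌋) : |a - b| < 1 := Int.abs_sub_lt_one_of_floor_eq_floor h

theorem case_one {ι : Type} (F : Finset ι) (r : ι → Fin 3 → ℂ) (A d₁ d₂ : ℝ) (hA : 1 ≤ A) (h1 : 1 / 8 ≤ d₁)
    (h2 : 1 / 8 ≤ d₂) (him : ∀ x ∈ F, (r x 0).im = 0)
    (hb : ∀ x ∈ F, 0 ≤ (r x 0).re ∧ (r x 0).re ≤ 1 ∧ ‖r x 0 - r x 1‖ ≤ d₁ ∧ ‖r x 0 - r x 2‖ ≤ d₂)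
    (hsep : ∀ x ∈ F, ∀ y ∈ F, x ≠ y → 1 ≤ A ^ 2 * ∏ i, ‖r x i - r y i‖) :
    (F.card : ℝ) ≤ 200 * (A ^ 2 * d₁ * d₂) := by
  set N : ℝ := 100 * (A ^ 2 * d₁ * d₂) with hN
  have hA2 : 1 ≤ A ^ 2 := one_le_pow₀ hA
  have hdd : 1 / 64 ≤ d₁ * d₂ := by nlinarith
  have hN1 : 1 ≤ N := by
    have : 1 / 64 ≤ A ^ 2 * (d₁ * d₂) := by nlinarith
    rw [hN]
    nlinarith
  have key : ∀ x ∈ F, ∀ y ∈ F, x ≠ y → 1 ≤ N * |(r x 0).re - (r y 0).re| := by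
    intro x hx y hy hxy
    obtain ⟨a1, a2, a3, a4⟩ := hb x hx
    obtain ⟨b1, b2, b3, b4⟩ := hb y hy
    have hs := hsep x hx y hy hxy
    rw [Fin.prod_univ_three] at hs
    have h0 : ‖r x 0 - r y 0‖ = |(r x 0).re - (r y 0).re| := by
      have e : r x 0 - r y 0 = (((r x 0).re - (r y 0).re : ℝ) : ℂ) := by
        apply Complex.ext
        · simp
        · simp [him x hx, him y hy]
      rw [e, Complex.norm_real, Real.norm_eq_abs]
    have hle : |(r x 0).re - (r y 0).re| ≤ 1 := by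
      rw [abs_le]
      constructor <;> linarith
    set δ : ℝ := |(r x 0).re - (r y 0).re| with hδ
    have hδ0 : 0 ≤ δ := abs_nonneg _
    have g1 : ‖r x 1 - r y 1‖ ≤ 10 * d₁ := by
      have e : r x 1 - r y 1 = -(r x 0 - r x 1) + (r x 0 - r y 0) + (r y 0 - r y 1) := by ring
      rw [e]
      refine (norm_add₃_le).trans ?_
      rw [norm_neg, h0]
      linarith
    have g2 : ‖r x 2 - r y 2‖ ≤ 10 * d₂ := by
      have e : r x 2 - r y 2 = -(r x 0 - r x 2) + (r x 0 - r y 0) + (r y 0 - r y 2) := by ring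
      rw [e]
      refine (norm_add₃_le).trans ?_
      rw [norm_neg, h0]
      linarith
    rw [h0] at hs
    have g3 : δ * ‖r x 1 - r y 1‖ * ‖r x 2 - r y 2‖ ≤ δ * (10 * d₁) * (10 * d₂) := by
      apply mul_le_mul (mul_le_mul_of_nonneg_left g1 hδ0) g2 (norm_nonneg _) (by positivity)
    have g4 : A ^ 2 * (δ * ‖r x 1 - r y 1‖ * ‖r x 2 - r y 2‖) ≤ A ^ 2 * (δ * (10 * d₁) * (10 * d₂)) :=
      mul_le_mul_of_nonneg_left g3 (by positivity)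
    have e : A ^ 2 * (δ * (10 * d₁) * (10 * d₂)) = N * δ := by rw [hN]; ring
    linarith
  have hmaps : ∀ x ∈ F, (fun x => ⌊N * (r x 0).re⌋) x ∈ Icc (0 : ℤ) ⌊N⌋ := by
    intro x hx
    obtain ⟨a1, a2, _⟩ := hb x hx
    rw [mem_Icc]
    constructor
    · exact Int.floor_nonneg.2 (by positivity)
    · apply Int.floor_le_floor
      nlinarith
  have hinj : Set.InjOn (fun x => ⌊N * (r x 0).re⌋) F := by
    intro x hx y hy hxy
    by_contra hne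
    have h3 := floor_close hxy
    rw [← mul_sub, abs_mul, abs_of_pos (by linarith : 0 < N)] at h3
    linarith [key x hx y hy hne]
  have hc := card_le_card_of_injOn _ hmaps hinj
  rw [Int.card_Icc] at hc
  have h3 : (((⌊N⌋ + 1 - 0).toNat : ℕ) : ℝ) = ((⌊N⌋ + 1 : ℤ) : ℝ) := by
    have : 0 ≤ ⌊N⌋ := Int.floor_nonneg.2 (by linarith)
    have h4 : (((⌊N⌋ + 1 - 0).toNat : ℤ)) = ⌊N⌋ + 1 := by rw [Int.toNat_of_nonneg (by omega)]; ring
    exact_mod_cast h4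
  have h4 : (F.card : ℝ) ≤ (((⌊N⌋ + 1 - 0).toNat : ℕ) : ℝ) := by exact_mod_cast hc
  rw [h3] at h4
  push_cast at h4
  have h5 := Int.floor_le N
  have h6 : 200 * (A ^ 2 * d₁ * d₂) = 2 * N := by rw [hN]; ring
  rw [h6]
  linarith

theorem case_two {ι : Type} (F : Finset ι) (r : ι → Fin 3 → ℂ) (A d₁ d₂ : ℝ) (hA : 1 ≤ A) (h1 : 1 / 8 ≤ d₁)
    (h2 : 1 / 8 ≤ d₂) (him : ∀ x ∈ F, r x 1 = (starRingEnd ℂ) (r x 0) ∧ (r x 2).im = 0)
    (hb : ∀ x ∈ F, 0 ≤ (r x 0).re ∧ (r x 0).re ≤ 1 ∧ ‖r x 0 - r x 1‖ ≤ d₁ ∧ ‖r x 0 - r x 2‖ ≤ d₂)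
    (hsep : ∀ x ∈ F, ∀ y ∈ F, x ≠ y → 1 ≤ A ^ 2 * ∏ i, ‖r x i - r y i‖) :
    (F.card : ℝ) ≤ 600 * (A ^ 2 * d₁ * d₂) := by
  set N : ℝ := √(24 * (A ^ 2 * d₂)) with hN
  have hA2 : 1 ≤ A ^ 2 := one_le_pow₀ hA
  have hN2 : N ^ 2 = 24 * (A ^ 2 * d₂) := Real.sq_sqrt (by positivity)
  have hN0 : 0 ≤ N := Real.sqrt_nonneg _
  have hN3 : 3 ≤ N ^ 2 := by rw [hN2]; nlinarith
  have hN1 : 1.7 ≤ N := by nlinarith
  set D : ℝ := min (d₁ / 2) d₂ with hD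
  have hD1 : D ≤ d₁ / 2 := min_le_left _ _
  have hD2 : D ≤ d₂ := min_le_right _ _
  have hD3 : 1 / 16 ≤ D := le_min (by linarith) (by linarith)
  have hImD : ∀ x ∈ F, |(r x 0).im| ≤ D := by
    intro x hx
    obtain ⟨_, _, a3, a4⟩ := hb x hx
    obtain ⟨c1, c2⟩ := him x hx
    apply le_min
    · have h3 : |(r x 0 - r x 1).im| ≤ ‖r x 0 - r x 1‖ := Complex.abs_im_le_norm _
      have h4 : (r x 0 - r x 1).im = 2 * (r x 0).im := by
        rw [c1, Complex.sub_im, Complex.conj_im]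
        ring
      rw [h4, abs_mul, abs_of_pos (by norm_num : (0 : ℝ) < 2)] at h3
      linarith
    · have h3 : |(r x 0 - r x 2).im| ≤ ‖r x 0 - r x 2‖ := Complex.abs_im_le_norm _
      have h4 : (r x 0 - r x 2).im = (r x 0).im := by
        rw [Complex.sub_im, c2, sub_zero]
      rw [h4] at h3
      linarith
  have key : ∀ x ∈ F, ∀ y ∈ F, x ≠ y → 2 ≤ N ^ 2 * ‖r x 0 - r y 0‖ ^ 2 := by
    intro x hx y hy hxy
    obtain ⟨a1, a2, a3, a4⟩ := hb x hx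
    obtain ⟨b1, b2, b3, b4⟩ := hb y hy
    obtain ⟨c1, c2⟩ := him x hx
    obtain ⟨e1, e2⟩ := him y hy
    have hs := hsep x hx y hy hxy
    rw [Fin.prod_univ_three] at hs
    set δ : ℝ := ‖r x 0 - r y 0‖ with hδ
    have hδ0 : 0 ≤ δ := norm_nonneg _
    have g1 : ‖r x 1 - r y 1‖ = δ := by
      rw [c1, e1, ← map_sub, RCLike.norm_conj]
    have g2 : δ ≤ 10 * d₂ := by
      have h3 := Complex.norm_le_abs_re_add_abs_im (r x 0 - r y 0)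
      rw [Complex.sub_re, Complex.sub_im] at h3
      have h4 : |(r x 0).re - (r y 0).re| ≤ 1 := by
        rw [abs_le]
        constructor <;> linarith
      have h5 : |(r x 0).im - (r y 0).im| ≤ 2 * D := by
        have := abs_sub (r x 0).im (r y 0).im
        linarith [hImD x hx, hImD y hy]
      linarith
    have g3 : ‖r x 2 - r y 2‖ ≤ 12 * d₂ := by
      have e : r x 2 - r y 2 = -(r x 0 - r x 2) + (r x 0 - r y 0) + (r y 0 - r y 2) := by ring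
      rw [e]
      refine (norm_add₃_le).trans ?_
      rw [norm_neg]
      linarith
    rw [g1] at hs
    have g4 : δ * δ * ‖r x 2 - r y 2‖ ≤ δ * δ * (12 * d₂) := mul_le_mul_of_nonneg_left g3 (by positivity)
    have g5 : A ^ 2 * (δ * δ * ‖r x 2 - r y 2‖) ≤ A ^ 2 * (δ * δ * (12 * d₂)) :=
      mul_le_mul_of_nonneg_left g4 (by positivity)
    have e : N ^ 2 * δ ^ 2 = 2 * (A ^ 2 * (δ * δ * (12 * d₂))) := by rw [hN2]; ring
    linarith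
  have hmaps : ∀ x ∈ F, (fun x => (⌊N * (r x 0).re⌋, ⌊N * (r x 0).im⌋)) x ∈
      Icc (0 : ℤ) ⌊N⌋ ×ˢ Icc (-⌈N * D⌉) ⌊N * D⌋ := by
    intro x hx
    obtain ⟨a1, a2, _⟩ := hb x hx
    have h3 := abs_le.1 (hImD x hx)
    rw [mem_product, mem_Icc, mem_Icc]
    refine ⟨⟨?_, ?_⟩, ?_, ?_⟩
    · exact Int.floor_nonneg.2 (by positivity)
    · apply Int.floor_le_floor
      nlinarith
    · rw [← Int.floor_neg]
      apply Int.floor_le_floor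
      nlinarith
    · apply Int.floor_le_floor
      nlinarith
  have hinj : Set.InjOn (fun x => (⌊N * (r x 0).re⌋, ⌊N * (r x 0).im⌋)) F := by
    intro x hx y hy hxy
    by_contra hne
    have hxy1 : ⌊N * (r x 0).re⌋ = ⌊N * (r y 0).re⌋ := congrArg Prod.fst hxy
    have hxy2 : ⌊N * (r x 0).im⌋ = ⌊N * (r y 0).im⌋ := congrArg Prod.snd hxy
    have h3 := floor_close hxy1
    have h4 := floor_close hxy2
    have h5 := key x hx y hy hne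
    have h6 : ‖r x 0 - r y 0‖ ^ 2 = ((r x 0).re - (r y 0).re) ^ 2 + ((r x 0).im - (r y 0).im) ^ 2 := by
      rw [← Complex.normSq_eq_norm_sq, Complex.normSq_apply, Complex.sub_re, Complex.sub_im]
      ring
    have h7 : (N * (r x 0).re - N * (r y 0).re) ^ 2 < 1 := by
      rw [← sq_abs]
      have := abs_nonneg (N * (r x 0).re - N * (r y 0).re)
      nlinarith
    have h8 : (N * (r x 0).im - N * (r y 0).im) ^ 2 < 1 := by
      rw [← sq_abs]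
      have := abs_nonneg (N * (r x 0).im - N * (r y 0).im)
      nlinarith
    rw [h6] at h5
    nlinarith
  have hc := card_le_card_of_injOn _ hmaps hinj
  rw [card_product, Int.card_Icc, Int.card_Icc] at hc
  have hND : 0 ≤ N * D := by positivity
  have h3 : (((⌊N⌋ + 1 - 0).toNat : ℕ) : ℝ) = ((⌊N⌋ + 1 : ℤ) : ℝ) := by
    have : 0 ≤ ⌊N⌋ := Int.floor_nonneg.2 (by linarith)
    have h4 : (((⌊N⌋ + 1 - 0).toNat : ℤ)) = ⌊N⌋ + 1 := by rw [Int.toNat_of_nonneg (by omega)]; ring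
    exact_mod_cast h4
  have h3' : (((⌊N * D⌋ + 1 - -⌈N * D⌉).toNat : ℕ) : ℝ) = ((⌊N * D⌋ + 1 + ⌈N * D⌉ : ℤ) : ℝ) := by
    have a1 : 0 ≤ ⌊N * D⌋ := Int.floor_nonneg.2 hND
    have a2 : 0 ≤ ⌈N * D⌉ := Int.ceil_nonneg hND
    have h4 : (((⌊N * D⌋ + 1 - -⌈N * D⌉).toNat : ℤ)) = ⌊N * D⌋ + 1 + ⌈N * D⌉ := by
      rw [Int.toNat_of_nonneg (by omega)]; ring
    exact_mod_cast h4
  have h4 : (F.card : ℝ) ≤ (((⌊N⌋ + 1 - 0).toNat : ℕ) : ℝ) * (((⌊N * D⌋ + 1 - -⌈N * D⌉).toNat : ℕ) : ℝ) := by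
    exact_mod_cast hc
  rw [h3, h3'] at h4
  push_cast at h4
  have h5 := Int.floor_le N
  have h6 := Int.floor_le (N * D)
  have h7 := (Int.ceil_lt_add_one (N * D)).le
  have h8 : 0 ≤ (⌊N⌋ : ℝ) + 1 := by
    have : (0 : ℤ) ≤ ⌊N⌋ := Int.floor_nonneg.2 (by linarith)
    have : (0 : ℝ) ≤ (⌊N⌋ : ℝ) := by exact_mod_cast this
    linarith
  have hND2 : 0.1 ≤ N * D := by nlinarith
  have h9 : ((⌊N⌋ : ℝ) + 1) * ((⌊N * D⌋ : ℝ) + 1 + (⌈N * D⌉ : ℝ)) ≤ (2 * N) * (22 * (N * D)) := by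
    have b1 : (⌊N⌋ : ℝ) + 1 ≤ 2 * N := by linarith
    have b2 : (⌊N * D⌋ : ℝ) + 1 + (⌈N * D⌉ : ℝ) ≤ 22 * (N * D) := by linarith
    calc _ ≤ ((⌊N⌋ : ℝ) + 1) * (22 * (N * D)) := mul_le_mul_of_nonneg_left b2 h8
      _ ≤ (2 * N) * (22 * (N * D)) := mul_le_mul_of_nonneg_right b1 (by positivity)
  have h10 : (2 * N) * (22 * (N * D)) = 44 * (24 * (A ^ 2 * d₂)) * D := by rw [← hN2]; ring
  have h11 : 44 * (24 * (A ^ 2 * d₂)) * D ≤ 44 * (24 * (A ^ 2 * d₂)) * (d₁ / 2) :=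
    mul_le_mul_of_nonneg_left hD1 (by positivity)
  have h12 : 0 ≤ A ^ 2 * d₁ * d₂ := by positivity
  nlinarith

theorem pack : Q273.V.S_PACK := by
  refine ⟨600, by norm_num, fun ι F r A d₁ d₂ hA h1 h2 hcase hb hsep => ?_⟩
  have h0 : 0 ≤ A ^ 2 * d₁ * d₂ := by positivity
  have e : 600 * A ^ 2 * d₁ * d₂ = 600 * (A ^ 2 * d₁ * d₂) := by ring
  rw [e]
  rcases hcase with h | h
  · have := case_one F r A d₁ d₂ hA h1 h2 h hb hsep
    linarith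
  · exact case_two F r A d₁ d₂ hA h1 h2 h hb hsep

end Pool.Agent.Q190.V
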