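import Pool.Agent.Q273.V.Stm
import Pool.Agent.Q176.T6.Gauss

/-!
# Project V, job SEP: two generators of a number field are separated
-/

set_option autoImplicit false

namespace Pool.Agent.Q190.V

open Polynomial NumberField

/-- a zero of an irreducible polynomial of degree `[K : ℚ]` is a generator -/
theorem adjoin_top {K : Type} [Field K] [NumberField K] {s : ℕ} {x : K} {f : ℤ[X]}
    (hs : Module.finrank ℚ K = s) (hf : Q273.V.IsMin s f x) : IntermediateField.adjoin ℚ {x} = ⊤ := by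
  obtain ⟨h1, h2, h3⟩ := hf
  have hs0 : s ≠ 0 := by
    rw [← hs]
    exact Module.finrank_pos.ne'
  have hprim : f.IsPrimitive := h1.isPrimitive (by rw [h2]; exact hs0)
  have hirr : Irreducible (f.map (Int.castRingHom ℚ)) :=
    (IsPrimitive.Int.irreducible_iff_irreducible_map_cast hprim).1 h1
  have hint : IsIntegral ℚ x := Algebra.IsIntegral.isIntegral x
  have hroot : aeval x (f.map (Int.castRingHom ℚ)) = 0 := by
    have : aeval x (f.map (Int.castRingHom ℚ)) = aeval x f := aeval_map_algebraMap ℚ x f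
    rw [this, h3]
  have hdvd : minpoly ℚ x ∣ f.map (Int.castRingHom ℚ) := minpoly.dvd ℚ x hroot
  have hass : Associated (minpoly ℚ x) (f.map (Int.castRingHom ℚ)) :=
    (minpoly.irreducible hint).associated_of_dvd hirr hdvd
  have hdeg : (minpoly ℚ x).natDegree = s := by
    rw [natDegree_eq_of_degree_eq (degree_eq_degree_of_associated hass), 
      natDegree_map_eq_of_injective (by exact Int.cast_injective), h2]
  rw [Field.primitive_element_iff_minpoly_natDegree_eq, hdeg, hs]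

theorem norm_prod' {K : Type} [Field K] [NumberField K] (z : K) :
    |((Algebra.norm ℚ z : ℚ) : ℝ)| = ∏ σ : K →+* ℂ, ‖σ z‖ := by
  have h1 := Algebra.norm_eq_prod_embeddings ℚ ℂ z
  have h2 := congrArg (fun w : ℂ => ‖w‖) h1
  have h3 : ‖(algebraMap ℚ ℂ) (Algebra.norm ℚ z)‖ = |((Algebra.norm ℚ z : ℚ) : ℝ)| := by
    rw [eq_ratCast, Complex.norm_ratCast]
  rw [h3, norm_prod] at h2
  rw [h2]
  exact (Fintype.prod_equiv (RingHom.equivRatAlgHom K ℂ) (fun f => ‖f z‖)
      (fun φ => ‖φ z‖) fun _ => by simp [RingHom.equivRatAlgHom_apply]).symm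

theorem sep : Q273.V.S_SEP := by
  intro K _ _ s x y f g hs hf hg hxy
  have hx := adjoin_top hs hf
  have hy := adjoin_top hs hg
  obtain ⟨a, b, hb, hab⟩ := IsFractionRing.div_surjective (A := 𝓞 K) x
  obtain ⟨a', b', hb', hab'⟩ := IsFractionRing.div_surjective (A := 𝓞 K) y
  have hb0 : b ≠ 0 := nonZeroDivisors.ne_zero hb
  have hb0' : b' ≠ 0 := nonZeroDivisors.ne_zero hb'
  have hbK : (b : K) ≠ 0 := by exact_mod_cast hb0
  have hbK' : (b' : K) ≠ 0 := by exact_mod_cast hb0'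
  have e1 : (a : K) = b * x := by
    rw [← hab]
    exact (mul_div_cancel₀ _ hbK).symm
  have e2 : (a' : K) = b' * y := by
    rw [← hab']
    exact (mul_div_cancel₀ _ hbK').symm
  have G1 := Pool.Agent.Q176.T6.gauss K x f a b hx hf.1 hf.2.2 hb0 e1
  have G2 := Pool.Agent.Q176.T6.gauss K y g a' b' hy hg.1 hg.2.2 hb0' e2
  set I : Ideal (𝓞 K) := Ideal.span {a, b} with hI
  set J : Ideal (𝓞 K) := Ideal.span {a', b'} with hJ
  set z : 𝓞 K := a * b' - a' * b with hz
  have hzK : (z : K) = b * b' * (x - y) := by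
    have : (z : K) = (a : K) * b' - a' * b := by rw [hz]; push_cast; rfl
    rw [this, e1, e2]
    ring
  have hzK0 : (z : K) ≠ 0 := by
    rw [hzK]
    exact mul_ne_zero (mul_ne_zero hbK hbK') (sub_ne_zero.2 hxy)
  have hz0 : z ≠ 0 := by
    intro h
    exact hzK0 (by rw [h]; simp)
  have hmem : z ∈ I * J := by
    rw [hz]
    refine Ideal.sub_mem _ (Ideal.mul_mem_mul (Ideal.subset_span (by simp)) (Ideal.subset_span (by simp))) ?_
    rw [mul_comm]
    exact Ideal.mul_mem_mul (Ideal.subset_span (by simp)) (Ideal.subset_span (by simp))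
  have hle : Ideal.absNorm I * Ideal.absNorm J ≤ (Algebra.norm ℤ z).natAbs := by
    rw [← Ideal.absNorm_span_singleton, ← map_mul]
    refine Nat.le_of_dvd (Nat.pos_of_ne_zero ?_) (Ideal.absNorm_dvd_absNorm_of_le ?_)
    · rw [Ne, Ideal.absNorm_eq_zero_iff, Ideal.span_singleton_eq_bot]
      exact hz0
    · rw [Ideal.span_singleton_le_iff_mem]
      exact hmem
  have hI0 : 0 < Ideal.absNorm I := by
    rw [Nat.pos_iff_ne_zero, Ne, Ideal.absNorm_eq_zero_iff]
    intro h
    have : b ∈ I := Ideal.subset_span (by simp)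
    rw [h] at this
    exact hb0 this
  have hJ0 : 0 < Ideal.absNorm J := by
    rw [Nat.pos_iff_ne_zero, Ne, Ideal.absNorm_eq_zero_iff]
    intro h
    have : b' ∈ J := Ideal.subset_span (by simp)
    rw [h] at this
    exact hb0' this
  have habs : ∀ w : 𝓞 K, (((Algebra.norm ℤ w).natAbs : ℕ) : ℝ) = |((Algebra.norm ℚ (w : K) : ℚ) : ℝ)| := by
    intro w
    rw [← Algebra.coe_norm_int, Nat.cast_natAbs]
    push_cast
    rfl
  have hN : (((Algebra.norm ℤ z).natAbs : ℕ) : ℝ) = (((Algebra.norm ℤ b).natAbs : ℕ) : ℝ) *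
      (((Algebra.norm ℤ b').natAbs : ℕ) : ℝ) * ∏ σ : K →+* ℂ, ‖σ x - σ y‖ := by
    rw [habs, habs, habs, hzK, map_mul, map_mul]
    push_cast
    rw [abs_mul, abs_mul, norm_prod' (x - y)]
    simp only [map_sub]
  have hlf : ((f.leadingCoeff.natAbs : ℕ) : ℝ) = Q273.V.lc f := by
    unfold Q273.V.lc
    rw [Nat.cast_natAbs]
    push_cast
    rfl
  have hlg : ((g.leadingCoeff.natAbs : ℕ) : ℝ) = Q273.V.lc g := by
    unfold Q273.V.lc
    rw [Nat.cast_natAbs]
    push_cast
    rfl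
  have hleR : (Ideal.absNorm I : ℝ) * (Ideal.absNorm J : ℝ) ≤ (((Algebra.norm ℤ z).natAbs : ℕ) : ℝ) := by
    exact_mod_cast hle
  rw [hN, ← G1, ← G2] at hleR
  push_cast at hleR
  have hI0' : (0 : ℝ) < Ideal.absNorm I := by exact_mod_cast hI0
  have hJ0' : (0 : ℝ) < Ideal.absNorm J := by exact_mod_cast hJ0
  rw [← hlf, ← hlg]
  have h5 : (Ideal.absNorm I : ℝ) * (Ideal.absNorm J : ℝ) * 1 ≤ (Ideal.absNorm I : ℝ) * (Ideal.absNorm J : ℝ) *
      (((f.leadingCoeff.natAbs : ℕ) : ℝ) * ((g.leadingCoeff.natAbs : ℕ) : ℝ) * ∏ σ : K →+* ℂ, ‖σ x - σ y‖) := by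
    rw [mul_one]
    refine hleR.trans (le_of_eq ?_)
    push_cast
    ring
  exact le_of_mul_le_mul_left h5 (by positivity)

end Pool.Agent.Q190.V
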