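import Pool.Agent.Q190.V.Drt

/-!
# Project V, job SHELL: the first moment of one orbit of `SL₂(ℤ)`
-/

set_option autoImplicit false

namespace Pool.Agent.Q190.V

open Polynomial NumberField Q273.V

theorem cubic_rel {K : Type} [Field K] {x : K} {f : ℤ[X]} (hf : IsMin 3 f x) :
    (f.coeff 3 : K) * x ^ 3 + f.coeff 2 * x ^ 2 + f.coeff 1 * x + f.coeff 0 = 0 := by
  have h1 := hf.2.2
  rw [aeval_eq_sum_range, hf.2.1] at h1
  simp only [Finset.sum_range_succ, Finset.range_zero, Finset.sum_empty] at h1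
  simp only [zsmul_eq_mul, pow_zero, mul_one, pow_one, zero_add] at h1
  rw [← h1]
  ring

/-- the minimal polynomial is unique up to sign -/
theorem lc_unique {K : Type} [Field K] [CharZero K] {x : K} {f g : ℤ[X]} (hf : IsMin 3 f x)
    (hg : IsMin 3 g x) : lc f = lc g := by
  have key : ∀ {f g : ℤ[X]}, IsMin 3 f x → IsMin 3 g x → lc f ≤ lc g := by
    intro f g hf hg
    obtain ⟨m, h, -⟩ := mult_of_root hf (cubic_rel hg)
    have hf3 : f.leadingCoeff = f.coeff 3 := by rw [leadingCoeff, hf.2.1]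
    have hg3 : g.leadingCoeff = g.coeff 3 := by rw [leadingCoeff, hg.2.1]
    have hg0 : g.leadingCoeff ≠ 0 := leadingCoeff_ne_zero.2 hg.1.ne_zero
    have hm : m ≠ 0 := by
      rintro rfl
      rw [hg3, h, zero_mul] at hg0
      exact hg0 rfl
    have hm1 : (1 : ℝ) ≤ |(m : ℝ)| := by exact_mod_cast Int.one_le_abs hm
    unfold lc
    rw [hf3, hg3, h]
    push_cast
    rw [abs_mul]
    nlinarith [abs_nonneg (f.coeff 3 : ℝ)]
  exact le_antisymm (key hf hg) (key hg hf)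

/-- the data of one point of the orbit -/
theorem pt_data (hmin : S_MIN) (hmob : S_MOB) {K : Type} [Field K] [NumberField K]
    (hK : Module.finrank ℚ K = 3) (e : Fin 3 ≃ (K →+* ℂ)) {x₀ x : K} {f₀ f : ℤ[X]} {n : ℕ} {T : ℝ}
    (h0 : IsMin 3 f₀ x₀) (hf : IsMin 3 f x) (hM : M f ≤ T) (hn : ‖e 0 x‖ ≤ n) {p q r t : ℤ}
    (hdet : p * t - q * r = 1) (hx : x = ((p : K) * x₀ + q) / (r * x₀ + t)) :
    (∀ i, 0 < ‖(r : ℂ) * e i x₀ + t‖) ∧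
    1 ≤ lc f₀ * (‖(r : ℂ) * e 0 x₀ + t‖ * ‖(r : ℂ) * e 1 x₀ + t‖ * ‖(r : ℂ) * e 2 x₀ + t‖) ∧
    lc f₀ * (‖(r : ℂ) * e 0 x₀ + t‖ * ‖(r : ℂ) * e 1 x₀ + t‖ * ‖(r : ℂ) * e 2 x₀ + t‖) ≤ T ∧
    lc f₀ * ‖(r : ℂ) * e 2 x₀ + t‖ * ‖e 0 x₀ - e 1 x₀‖ ≤ (n + 1) * T ∧
    lc f₀ * ‖(r : ℂ) * e 1 x₀ + t‖ * ‖e 0 x₀ - e 2 x₀‖ ≤ (n + 1) * T ∧
    lc f₀ * ‖e 0 x₀ - e 1 x₀‖ * ‖e 0 x₀ - e 2 x₀‖ ≤ (n + 1) ^ 2 * T * ‖(r : ℂ) * e 0 x₀ + t‖ ∧
    1 / dv f (e 0 x) = ‖(r : ℂ) * e 0 x₀ + t‖ / (lc f₀ * ‖e 0 x₀ - e 1 x₀‖ * ‖e 0 x₀ - e 2 x₀‖) ∧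
    ‖e 1 x₀ - e 2 x₀‖ * ‖(r : ℂ) * e 0 x₀ + t‖ ≤
      ‖e 0 x₀ - e 2 x₀‖ * ‖(r : ℂ) * e 1 x₀ + t‖ + ‖e 0 x₀ - e 1 x₀‖ * ‖(r : ℂ) * e 2 x₀ + t‖ := by
  classical
  obtain ⟨hne, g, hg, hlg⟩ := hmob K 3 x₀ f₀ p q r t (by norm_num) hK h0 hdet
  rw [← hx] at hg
  obtain ⟨-, hinj0, -, hl0, -⟩ := hmin K 3 x₀ f₀ (by norm_num) hK h0
  obtain ⟨-, hinj, hMf, hl1, hdv⟩ := hmin K 3 x f (by norm_num) hK hf
  have hprod : ∀ h : (K →+* ℂ) → ℝ, ∏ σ, h σ = h (e 0) * h (e 1) * h (e 2) := by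
    intro h
    rw [← Equiv.prod_comp e, Fin.prod_univ_three]
  have hdetC : (p : ℂ) * t - q * r = 1 := by exact_mod_cast hdet
  set θ : Fin 3 → ℂ := fun i => e i x₀ with hθ
  set s : Fin 3 → ℂ := fun i => (r : ℂ) * e i x₀ + t with hs
  have hs0 : ∀ i, s i ≠ 0 := by
    intro i h
    apply hne
    have : e i ((r : K) * x₀ + t) = 0 := by
      simp only [map_add, map_mul, map_intCast]
      exact h
    exact (map_eq_zero (e i)).1 this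
  have hy : ∀ i, 0 < ‖s i‖ := fun i => norm_pos_iff.2 (hs0 i)
  have hex : ∀ i, e i x = ((p : ℂ) * θ i + q) / s i := by
    intro i
    rw [hx]
    simp only [map_div₀, map_add, map_mul, map_intCast]
    rfl
  have hdiff : ∀ i j, ‖e i x - e j x‖ = ‖θ i - θ j‖ / (‖s i‖ * ‖s j‖) := by
    intro i j
    rw [← norm_mul, ← norm_div]
    congr 1
    rw [hex i, hex j, div_sub_div _ _ (hs0 i) (hs0 j)]
    congr 1
    simp only [hs, hθ]
    linear_combination (e i x₀ - e j x₀) * hdetC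
  have hθne : ∀ i j, i ≠ j → 0 < ‖θ i - θ j‖ := by
    intro i j hij
    rw [norm_pos_iff, sub_ne_zero]
    intro h
    exact hij (e.injective (hinj0 h))
  have h01 := hθne 0 1 (by decide)
  have h02 := hθne 0 2 (by decide)
  have hlf : lc f = lc f₀ * (‖s 0‖ * ‖s 1‖ * ‖s 2‖) := by
    rw [lc_unique hf hg, hlg, hprod]
  have hl0p : 0 < lc f₀ := lt_of_lt_of_le one_pos hl0
  have hy0 := hy 0
  have hy1 := hy 1
  have hy2 := hy 2
  have hd1 : ‖e 0 x - e 1 x‖ = ‖θ 0 - θ 1‖ / (‖s 0‖ * ‖s 1‖) := hdiff 0 1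
  have hd2 : ‖e 0 x - e 2 x‖ = ‖θ 0 - θ 2‖ / (‖s 0‖ * ‖s 2‖) := hdiff 0 2
  rw [hprod] at hMf
  have hmx : ∀ j, ‖e 0 x - e j x‖ / (n + 1) ≤ max 1 ‖e j x‖ := by
    intro j
    rw [div_le_iff₀ (by positivity)]
    have k1 : ‖e 0 x - e j x‖ ≤ ‖e 0 x‖ + ‖e j x‖ := norm_sub_le _ _
    have k2 : 1 ≤ max 1 ‖e j x‖ := le_max_left _ _
    have k3 : ‖e j x‖ ≤ max 1 ‖e j x‖ := le_max_right _ _
    have k4 : (0 : ℝ) ≤ n := Nat.cast_nonneg n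
    nlinarith
  have hm0 : 1 ≤ max 1 ‖e 0 x‖ := le_max_left _ _
  have hm1 : 1 ≤ max 1 ‖e 1 x‖ := le_max_left _ _
  have hm2 : 1 ≤ max 1 ‖e 2 x‖ := le_max_left _ _
  have hlfp : 0 < lc f := lt_of_lt_of_le one_pos hl1
  have hT : lc f * (max 1 ‖e 0 x‖ * max 1 ‖e 1 x‖ * max 1 ‖e 2 x‖) ≤ T := hMf ▸ hM
  have hb0 : lc f ≤ T := by
    refine le_trans ?_ hT
    have : 1 ≤ max 1 ‖e 0 x‖ * max 1 ‖e 1 x‖ * max 1 ‖e 2 x‖ :=
      one_le_mul_of_one_le_of_one_le (one_le_mul_of_one_le_of_one_le hm0 hm1) hm2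
    nlinarith
  have hb1 : lc f * (‖e 0 x - e 1 x‖ / (n + 1)) ≤ T := by
    refine le_trans ?_ hT
    apply mul_le_mul_of_nonneg_left _ hlfp.le
    calc ‖e 0 x - e 1 x‖ / (n + 1) ≤ max 1 ‖e 1 x‖ := hmx 1
      _ = 1 * max 1 ‖e 1 x‖ * 1 := by ring
      _ ≤ _ := by gcongr
  have hb2 : lc f * (‖e 0 x - e 2 x‖ / (n + 1)) ≤ T := by
    refine le_trans ?_ hT
    apply mul_le_mul_of_nonneg_left _ hlfp.le
    calc ‖e 0 x - e 2 x‖ / (n + 1) ≤ max 1 ‖e 2 x‖ := hmx 2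
      _ = 1 * 1 * max 1 ‖e 2 x‖ := by ring
      _ ≤ _ := by gcongr
  have hb3 : lc f * ((‖e 0 x - e 1 x‖ / (n + 1)) * (‖e 0 x - e 2 x‖ / (n + 1))) ≤ T := by
    refine le_trans ?_ hT
    apply mul_le_mul_of_nonneg_left _ hlfp.le
    calc (‖e 0 x - e 1 x‖ / (n + 1)) * (‖e 0 x - e 2 x‖ / (n + 1)) ≤ max 1 ‖e 1 x‖ * max 1 ‖e 2 x‖ :=
          mul_le_mul (hmx 1) (hmx 2) (by positivity) (by positivity)
      _ = 1 * max 1 ‖e 1 x‖ * max 1 ‖e 2 x‖ := by ring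
      _ ≤ _ := by gcongr
  have hn1 : (0 : ℝ) < n + 1 := by positivity
  refine ⟨hy, ?_, ?_, ?_, ?_, ?_, ?_, ?_⟩
  · exact hlf ▸ hl1
  · exact hlf ▸ hb0
  · rw [hlf, hd1] at hb1
    have e1 : lc f₀ * (‖s 0‖ * ‖s 1‖ * ‖s 2‖) * (‖θ 0 - θ 1‖ / (‖s 0‖ * ‖s 1‖) / (n + 1)) =
        (lc f₀ * ‖s 2‖ * ‖θ 0 - θ 1‖) / (n + 1) := by
      field_simp
    rw [e1, div_le_iff₀ hn1] at hb1
    rw [mul_comm ((n : ℝ) + 1)]
    exact hb1
  · rw [hlf, hd2] at hb2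
    have e1 : lc f₀ * (‖s 0‖ * ‖s 1‖ * ‖s 2‖) * (‖θ 0 - θ 2‖ / (‖s 0‖ * ‖s 2‖) / (n + 1)) =
        (lc f₀ * ‖s 1‖ * ‖θ 0 - θ 2‖) / (n + 1) := by
      field_simp
    rw [e1, div_le_iff₀ hn1] at hb2
    rw [mul_comm ((n : ℝ) + 1)]
    exact hb2
  · rw [hlf, hd1, hd2] at hb3
    have e1 : lc f₀ * (‖s 0‖ * ‖s 1‖ * ‖s 2‖) * (‖θ 0 - θ 1‖ / (‖s 0‖ * ‖s 1‖) / (n + 1) *
        (‖θ 0 - θ 2‖ / (‖s 0‖ * ‖s 2‖) / (n + 1))) =
        (lc f₀ * ‖θ 0 - θ 1‖ * ‖θ 0 - θ 2‖) / ((n + 1) ^ 2 * ‖s 0‖) := by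
      field_simp
    rw [e1, div_le_iff₀ (by positivity)] at hb3
    calc lc f₀ * ‖θ 0 - θ 1‖ * ‖θ 0 - θ 2‖ ≤ T * ((n + 1) ^ 2 * ‖s 0‖) := hb3
      _ = _ := by ring
  · have hdv0 : dv f (e 0 x) = lc f * (‖e 0 x - e 1 x‖ * ‖e 0 x - e 2 x‖) := by
      rw [hdv (e 0), Finset.prod_filter, hprod]
      have k1 : e 1 ≠ e 0 := fun h => absurd (e.injective h) (by decide)
      have k2 : e 2 ≠ e 0 := fun h => absurd (e.injective h) (by decide)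
      simp [k1, k2]
    show 1 / dv f (e 0 x) = ‖s 0‖ / (lc f₀ * ‖θ 0 - θ 1‖ * ‖θ 0 - θ 2‖)
    rw [hdv0, hlf, hd1, hd2]
    field_simp
  · have id1 : (θ 1 - θ 2) * s 0 = (θ 0 - θ 2) * s 1 - (θ 0 - θ 1) * s 2 := by
      simp only [hs, hθ]
      ring
    calc ‖θ 1 - θ 2‖ * ‖s 0‖ = ‖(θ 0 - θ 2) * s 1 - (θ 0 - θ 1) * s 2‖ := by rw [← norm_mul, id1]
      _ ≤ ‖(θ 0 - θ 2) * s 1‖ + ‖(θ 0 - θ 1) * s 2‖ := norm_sub_le _ _
      _ = _ := by rw [norm_mul, norm_mul]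

/-- the number of the points with given bounds for the `y_i` -/
theorem card_cell (hcnt : S_CNT) {K : Type} [Field K] [NumberField K] (e : Fin 3 ≃ (K →+* ℂ)) {x₀ : K}
    (n : ℕ) (G : Finset K) (p q r t : K → ℤ) (Y : Fin 3 → ℝ) (hY : ∀ i, 0 < Y i)
    (hn : ∀ x ∈ G, ‖e 0 x‖ ≤ n) (hdet : ∀ x ∈ G, p x * t x - q x * r x = 1)
    (hne : ∀ x ∈ G, ∀ i, 0 < ‖(r x : ℂ) * e i x₀ + t x‖)
    (hx : ∀ x ∈ G, x = ((p x : K) * x₀ + q x) / (r x * x₀ + t x))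
    (hy : ∀ x ∈ G, ∀ i, ‖(r x : ℂ) * e i x₀ + t x‖ ≤ 2 * Y i) (j : Fin 3) (hj : e 0 x₀ ≠ e j x₀) :
    (G.card : ℝ) ≤ (4 * n + 1) * (24 * (1 + 4 * (Y 0 * Y j) / ‖e 0 x₀ - e j x₀‖)) := by
  classical
  set φ : K → ℤ × ℤ := fun x => (t x, - r x) with hφ
  have hS : ((G.image φ).card : ℝ) ≤ 24 * (1 + (2 * Y 0) * (2 * Y j) / ‖e 0 x₀ - e j x₀‖) := by
    apply hcnt (e 0 x₀) (e j x₀) hj (2 * Y 0) (2 * Y j) (by have := hY 0; positivity)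
      (by have := hY j; positivity)
    intro v hv
    obtain ⟨x, hxG, rfl⟩ := Finset.mem_image.1 hv
    refine ⟨⟨p x, q x, ?_⟩, ?_, ?_⟩
    · have := hdet x hxG
      simp only [hφ]
      linarith
    · have h1 := hy x hxG 0
      simp only [hφ]
      push_cast
      rw [show (t x : ℂ) - e 0 x₀ * -(r x : ℂ) = (r x : ℂ) * e 0 x₀ + t x by ring]
      exact h1
    · have h1 := hy x hxG j
      simp only [hφ]
      push_cast
      rw [show (t x : ℂ) - e j x₀ * -(r x : ℂ) = (r x : ℂ) * e j x₀ + t x by ring]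
      exact h1
  have hfib : G.card ≤ (4 * n + 1) * (G.image φ).card := by
    apply Finset.card_le_mul_card_image
    intro v hv
    obtain ⟨x, hxG, rfl⟩ := Finset.mem_image.1 hv
    have hsub : (G.filter fun a => φ a = φ x) ⊆
        (Finset.Icc (-(2 * n : ℤ)) (2 * n)).image (fun k : ℤ => x + (k : K)) := by
      intro x' hx'
      obtain ⟨hG', hφ'⟩ := Finset.mem_filter.1 hx'
      simp only [hφ, Prod.mk.injEq, neg_inj] at hφ'
      obtain ⟨ht, hr⟩ := hφ'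
      have d1 := hdet x hxG
      have d2 := hdet x' hG'
      rw [ht, hr] at d2
      have hne0 : (r x : K) * x₀ + t x ≠ 0 := by
        intro h
        have := hne x hxG 0
        rw [norm_pos_iff] at this
        apply this
        have h2 := congrArg (e 0) h
        simpa using h2
      have hk : x' = x + ((p x * q x' - q x * p x' : ℤ) : K) := by
        have hx1 := hx x' hG'
        rw [ht, hr] at hx1
        have hx2 := hx x hxG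
        refine hx1.trans (Eq.trans ?_ (congrArg (fun z => z + ((p x * q x' - q x * p x' : ℤ) : K)) hx2.symm))
        show _ = ((p x : K) * x₀ + q x) / (r x * x₀ + t x) + _
        rw [← sub_eq_iff_eq_add', ← sub_div, div_eq_iff hne0]
        have e1 : (p x * q x' - q x * p x') * r x = p x' - p x := by
          linear_combination p x' * d1 - p x * d2
        have e2 : (p x * q x' - q x * p x') * t x = q x' - q x := by
          linear_combination q x' * d1 - q x * d2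
        have e1K : ((p x * q x' - q x * p x' : ℤ) : K) * r x = p x' - p x := by exact_mod_cast e1
        have e2K : ((p x * q x' - q x * p x' : ℤ) : K) * t x = q x' - q x := by exact_mod_cast e2
        linear_combination (-x₀) * e1K - e2K
      rw [Finset.mem_image]
      refine ⟨p x * q x' - q x * p x', ?_, hk.symm⟩
      have h3 : ((p x * q x' - q x * p x' : ℤ) : ℂ) = e 0 x' - e 0 x := by
        have := congrArg (e 0) hk
        rw [map_add, map_intCast] at this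
        rw [this]
        ring
      have h4 : |((p x * q x' - q x * p x' : ℤ) : ℝ)| ≤ 2 * n := by
        rw [← Complex.norm_intCast, h3]
        calc ‖e 0 x' - e 0 x‖ ≤ ‖e 0 x'‖ + ‖e 0 x‖ := norm_sub_le _ _
          _ ≤ n + n := add_le_add (hn x' hG') (hn x hxG)
          _ = _ := by ring
      have h5 : |p x * q x' - q x * p x'| ≤ 2 * n := by exact_mod_cast h4
      rw [Finset.mem_Icc]
      exact abs_le.1 h5
    calc (G.filter fun a => φ a = φ x).card ≤ _ := Finset.card_le_card hsub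
      _ ≤ (Finset.Icc (-(2 * n : ℤ)) (2 * n)).card := Finset.card_image_le
      _ = 4 * n + 1 := by
        rw [Int.card_Icc]
        omega
  have hfib' : (G.card : ℝ) ≤ (4 * n + 1) * ((G.image φ).card : ℝ) := by exact_mod_cast hfib
  refine hfib'.trans ?_
  apply mul_le_mul_of_nonneg_left _ (by positivity)
  refine hS.trans (le_of_eq ?_)
  ring

/-- bounds for the `y_i` -/
theorem ybd {l T N a b c y0 y1 y2 : ℝ} (hN : 1 ≤ N) (hT : 1 ≤ T) (hl : 1 ≤ l) (hlT : l ≤ T)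
    (ha : 0 < a) (hb : 0 < b) (hc : 0 < c) (haT : a ≤ 2 * T) (hbT : b ≤ 2 * T) (hcT : c ≤ 2 * T)
    (hD : 1 ≤ l ^ 2 * (a * b * c)) (h0 : 0 < y0) (h1 : 0 < y1) (h2 : 0 < y2)
    (hA : 1 ≤ l * (y0 * y1 * y2)) (hB1 : l * y2 * a ≤ N * T) (hB2 : l * y1 * b ≤ N * T)
    (hd : l * a * b ≤ N ^ 2 * T * y0) (tri : c * y0 ≤ b * y1 + a * y2) :
    (1 ≤ 32 * N ^ 2 * T ^ 11 * y0 ∧ y0 ≤ 32 * N ^ 2 * T ^ 11) ∧
    (1 ≤ 32 * N ^ 2 * T ^ 11 * y1 ∧ y1 ≤ 32 * N ^ 2 * T ^ 11) ∧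
    (1 ≤ 32 * N ^ 2 * T ^ 11 * y2 ∧ y2 ≤ 32 * N ^ 2 * T ^ 11) := by
  have hT0 : 0 < T := by linarith
  have hN0 : 0 < N := by linarith
  have hl0 : 0 < l := by linarith
  have hl2 : l ^ 2 ≤ T ^ 2 := by gcongr
  have a1 : 1 ≤ 4 * T ^ 4 * a := by
    calc 1 ≤ l ^ 2 * (a * b * c) := hD
      _ ≤ T ^ 2 * (a * (2 * T) * (2 * T)) := by gcongr
      _ = _ := by ring
  have b1 : 1 ≤ 4 * T ^ 4 * b := by
    calc 1 ≤ l ^ 2 * (a * b * c) := hD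
      _ ≤ T ^ 2 * ((2 * T) * b * (2 * T)) := by gcongr
      _ = _ := by ring
  have c1 : 1 ≤ 4 * T ^ 4 * c := by
    calc 1 ≤ l ^ 2 * (a * b * c) := hD
      _ ≤ T ^ 2 * ((2 * T) * (2 * T) * c) := by gcongr
      _ = _ := by ring
  have u2 : y2 ≤ 4 * N * T ^ 5 := by
    calc y2 = 1 * y2 * 1 := by ring
      _ ≤ l * y2 * (4 * T ^ 4 * a) := by gcongr
      _ = 4 * T ^ 4 * (l * y2 * a) := by ring
      _ ≤ 4 * T ^ 4 * (N * T) := by gcongr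
      _ = _ := by ring
  have u1 : y1 ≤ 4 * N * T ^ 5 := by
    calc y1 = 1 * y1 * 1 := by ring
      _ ≤ l * y1 * (4 * T ^ 4 * b) := by gcongr
      _ = 4 * T ^ 4 * (l * y1 * b) := by ring
      _ ≤ 4 * T ^ 4 * (N * T) := by gcongr
      _ = _ := by ring
  have u0 : y0 ≤ 8 * N * T ^ 5 := by
    have k1 : b * y1 ≤ N * T := by
      calc b * y1 = 1 * y1 * b := by ring
        _ ≤ l * y1 * b := by gcongr
        _ ≤ _ := hB2
    have k2 : a * y2 ≤ N * T := by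
      calc a * y2 = 1 * y2 * a := by ring
        _ ≤ l * y2 * a := by gcongr
        _ ≤ _ := hB1
    calc y0 = 1 * y0 := by ring
      _ ≤ (4 * T ^ 4 * c) * y0 := by gcongr
      _ = 4 * T ^ 4 * (c * y0) := by ring
      _ ≤ 4 * T ^ 4 * (N * T + N * T) := by gcongr; linarith
      _ = _ := by ring
  have l0 : 1 ≤ 2 * N ^ 2 * T ^ 3 * y0 := by
    calc 1 ≤ l ^ 2 * (a * b * c) := hD
      _ = (l * a * b) * (l * c) := by ring
      _ ≤ (N ^ 2 * T * y0) * (T * (2 * T)) := by gcongr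
      _ = _ := by ring
  have l1 : 1 ≤ 32 * N ^ 2 * T ^ 11 * y1 := by
    calc 1 ≤ l * (y0 * y1 * y2) := hA
      _ ≤ T * ((8 * N * T ^ 5) * y1 * (4 * N * T ^ 5)) := by gcongr
      _ = _ := by ring
  have l2 : 1 ≤ 32 * N ^ 2 * T ^ 11 * y2 := by
    calc 1 ≤ l * (y0 * y1 * y2) := hA
      _ ≤ T * ((8 * N * T ^ 5) * (4 * N * T ^ 5) * y2) := by gcongr
      _ = _ := by ring
  have hT5 : T ^ 5 ≤ T ^ 11 := pow_le_pow_right₀ hT (by norm_num)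
  have hT3 : T ^ 3 ≤ T ^ 11 := pow_le_pow_right₀ hT (by norm_num)
  have hN2 : N ≤ N ^ 2 := by nlinarith
  have r1 : 8 * N * T ^ 5 ≤ 32 * N ^ 2 * T ^ 11 := by
    calc 8 * N * T ^ 5 ≤ 8 * N ^ 2 * T ^ 11 := by gcongr
      _ ≤ 32 * N ^ 2 * T ^ 11 := by gcongr; norm_num
  have r2 : 4 * N * T ^ 5 ≤ 32 * N ^ 2 * T ^ 11 := by
    calc 4 * N * T ^ 5 ≤ 4 * N ^ 2 * T ^ 11 := by gcongr
      _ ≤ 32 * N ^ 2 * T ^ 11 := by gcongr; norm_num
  have r3 : 2 * N ^ 2 * T ^ 3 ≤ 32 * N ^ 2 * T ^ 11 := by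
    calc 2 * N ^ 2 * T ^ 3 ≤ 2 * N ^ 2 * T ^ 11 := by gcongr
      _ ≤ 32 * N ^ 2 * T ^ 11 := by gcongr; norm_num
  refine ⟨⟨?_, u0.trans r1⟩, ⟨l1, u1.trans r2⟩, ⟨l2, u2.trans r2⟩⟩
  exact l0.trans (mul_le_mul_of_nonneg_right r3 h0.le)

/-- the sum over one cell -/
theorem cell_real {l T N a b c y0 y1 y2 Y0 Y1 Y2 k κ : ℝ} (_hN : 1 ≤ N) (hT : 1 ≤ T) (hl : 1 ≤ l)
    (ha : 0 < a) (hb : 0 < b) (hc : 0 < c) (hY0 : 0 < Y0) (hY1 : 0 < Y1) (hY2 : 0 < Y2)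
    (g0 : Y0 ≤ y0) (g1 : Y1 ≤ y1) (g2 : Y2 ≤ y2) (g1' : y1 ≤ 2 * Y1) (g2' : y2 ≤ 2 * Y2)
    (hA : l * (y0 * y1 * y2) ≤ T) (hB1 : l * y2 * a ≤ N * T) (hB2 : l * y1 * b ≤ N * T)
    (tri : c * y0 ≤ b * y1 + a * y2) (hκ : 0 ≤ κ) (hk : 0 ≤ k)
    (hk1 : k ≤ κ * (24 * (1 + 4 * (Y0 * Y1) / a))) (hk2 : k ≤ κ * (24 * (1 + 4 * (Y0 * Y2) / b))) :
    k * (2 * Y0 / (l * a * b)) ≤ 192 * κ * (N + 4) * T / (l ^ 2 * (a * b * c)) := by
  have hl0 : 0 < l := by linarith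
  have hT0 : 0 < T := by linarith
  have hy0 : 0 < y0 := lt_of_lt_of_le hY0 g0
  have hy1 : 0 < y1 := lt_of_lt_of_le hY1 g1
  have hy2 : 0 < y2 := lt_of_lt_of_le hY2 g2
  have hv : l * (Y0 * Y1 * Y2) ≤ T := by
    refine le_trans ?_ hA
    gcongr
  have w1 : l * Y2 * a ≤ N * T := by
    refine le_trans ?_ hB1
    gcongr
  have w2 : l * Y1 * b ≤ N * T := by
    refine le_trans ?_ hB2
    gcongr
  have t1 : c * Y0 ≤ 2 * (b * Y1) + 2 * (a * Y2) := by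
    calc c * Y0 ≤ c * y0 := by gcongr
      _ ≤ b * y1 + a * y2 := tri
      _ ≤ b * (2 * Y1) + a * (2 * Y2) := by gcongr
      _ = _ := by ring
  have s1 : k * (l * (b * Y1)) ≤ κ * 24 * ((N + 4) * T) := by
    calc k * (l * (b * Y1)) ≤ (κ * (24 * (1 + 4 * (Y0 * Y2) / b))) * (l * (b * Y1)) := by gcongr
      _ = κ * 24 * (l * Y1 * b + 4 * (l * (Y0 * Y1 * Y2))) := by
        field_simp
      _ ≤ κ * 24 * (N * T + 4 * T) := by gcongr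
      _ = _ := by ring
  have s2 : k * (l * (a * Y2)) ≤ κ * 24 * ((N + 4) * T) := by
    calc k * (l * (a * Y2)) ≤ (κ * (24 * (1 + 4 * (Y0 * Y1) / a))) * (l * (a * Y2)) := by gcongr
      _ = κ * 24 * (l * Y2 * a + 4 * (l * (Y0 * Y1 * Y2))) := by
        field_simp
      _ ≤ κ * 24 * (N * T + 4 * T) := by gcongr
      _ = _ := by ring
  have main : k * (l * (c * Y0)) ≤ 96 * κ * (N + 4) * T := by
    calc k * (l * (c * Y0)) ≤ k * (l * (2 * (b * Y1) + 2 * (a * Y2))) := by gcongr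
      _ = 2 * (k * (l * (b * Y1))) + 2 * (k * (l * (a * Y2))) := by ring
      _ ≤ 2 * (κ * 24 * ((N + 4) * T)) + 2 * (κ * 24 * ((N + 4) * T)) := by gcongr
      _ = _ := by ring
  rw [le_div_iff₀ (by positivity)]
  calc k * (2 * Y0 / (l * a * b)) * (l ^ 2 * (a * b * c)) = 2 * (k * (l * (c * Y0))) := by
        field_simp
    _ ≤ 2 * (96 * κ * (N + 4) * T) := by gcongr
    _ = _ := by ring

/-- the number of cells -/
theorem num_cells (n : ℕ) {ε : ℝ} (hε : 0 < ε) : ∃ C : ℝ, 0 < C ∧ ∀ T : ℝ, 1 ≤ T → ∃ m : ℕ,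
    32 * ((n : ℝ) + 1) ^ 2 * T ^ 11 ≤ 2 ^ m ∧ ((2 * m + 1 : ℕ) : ℝ) ^ 3 ≤ C * T ^ ε := by
  set δ : ℝ := ε / 3 with hδ
  have hδ0 : 0 < δ := by positivity
  set L : ℝ := 32 * ((n : ℝ) + 1) ^ 2 with hL
  have hL1 : 1 ≤ L := by
    have : (0 : ℝ) ≤ n := Nat.cast_nonneg n
    rw [hL]
    nlinarith
  set A : ℝ := 3 + 4 * L + 44 / δ with hA
  have hA0 : 0 < A := by positivity
  refine ⟨A ^ 3, by positivity, ?_⟩
  intro T hT
  have hT0 : 0 < T := by linarith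
  set R : ℝ := L * T ^ 11 with hR
  have hR1 : 1 ≤ R := by
    have : 1 ≤ T ^ 11 := one_le_pow₀ hT
    nlinarith
  have hR0 : 0 < R := by linarith
  refine ⟨⌈Real.logb 2 R⌉₊, ?_, ?_⟩
  · calc R = (2 : ℝ) ^ (Real.logb 2 R) := (Real.rpow_logb (by norm_num) (by norm_num) hR0).symm
      _ ≤ (2 : ℝ) ^ ((⌈Real.logb 2 R⌉₊ : ℕ) : ℝ) :=
        Real.rpow_le_rpow_of_exponent_le (by norm_num) (Nat.le_ceil _)
      _ = _ := Real.rpow_natCast _ _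
  · have h1 : ((⌈Real.logb 2 R⌉₊ : ℕ) : ℝ) ≤ Real.logb 2 R + 1 :=
      (Nat.ceil_lt_add_one (Real.logb_nonneg (by norm_num) hR1)).le
    have h2 : Real.log R = Real.log L + 11 * Real.log T := by
      rw [hR, Real.log_mul (by positivity) (by positivity), Real.log_pow]
      norm_num
    have h3 : Real.log L ≤ L := (Real.log_le_sub_one_of_pos (by positivity)).trans (by linarith)
    have h4 : Real.log T ≤ T ^ δ / δ := Real.log_le_rpow_div hT0.le hδ0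
    have hlogT : 0 ≤ Real.log T := Real.log_nonneg hT
    have hlog2 : 1 / 2 < Real.log 2 := by
      have := Real.log_two_gt_d9
      linarith
    have h5 : Real.logb 2 R ≤ 2 * Real.log R := by
      rw [Real.logb, div_le_iff₀ (by linarith)]
      have : 0 ≤ Real.log R := Real.log_nonneg hR1
      nlinarith
    have hTδ : 1 ≤ T ^ δ := Real.one_le_rpow hT hδ0.le
    have h6 : ((2 * ⌈Real.logb 2 R⌉₊ + 1 : ℕ) : ℝ) ≤ A * T ^ δ := by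
      push_cast
      calc 2 * ((⌈Real.logb 2 R⌉₊ : ℕ) : ℝ) + 1 ≤ 2 * (2 * (L + 11 * (T ^ δ / δ)) + 1) + 1 := by linarith
        _ = (3 + 4 * L) * 1 + 44 / δ * T ^ δ := by ring
        _ ≤ (3 + 4 * L) * T ^ δ + 44 / δ * T ^ δ := by gcongr
        _ = _ := by rw [hA]; ring
    calc ((2 * ⌈Real.logb 2 R⌉₊ + 1 : ℕ) : ℝ) ^ 3 ≤ (A * T ^ δ) ^ 3 := by gcongr
      _ = A ^ 3 * T ^ ε := by
        rw [mul_pow, ← Real.rpow_natCast (T ^ δ) 3, ← Real.rpow_mul hT0.le]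
        congr 2
        rw [hδ]
        push_cast
        ring

/-- **SHELL** -/
theorem shell' (hmin : S_MIN) (henum : S_ENUM) (hmob : S_MOB) (hcnt : S_CNT) (hdrt : S_DRT) : S_SHELL := by
  classical
  intro n ε hε
  obtain ⟨C, hC, hcells⟩ := num_cells n hε
  refine ⟨C * (192 * (4 * n + 1) * (n + 1 + 4)), by positivity, ?_⟩
  intro K _ _ hK σ T F f x₀ hT hx₀ hF
  obtain ⟨e, he, -⟩ := henum K hK σ
  subst he
  obtain ⟨m, hm, hmC⟩ := hcells T hT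
  have hT0 : 0 < T := by linarith
  obtain ⟨hf0, hM0, hn0, -⟩ := hF x₀ hx₀
  obtain ⟨-, hinj0, hMf0, hl0, -⟩ := hmin K 3 x₀ (f x₀) (by norm_num) hK hf0
  obtain ⟨hD1, hD2⟩ := hdrt K hK e x₀ (f x₀) hf0
  have hprod : ∀ h : (K →+* ℂ) → ℝ, ∏ σ, h σ = h (e 0) * h (e 1) * h (e 2) := by
    intro h
    rw [← Equiv.prod_comp e, Fin.prod_univ_three]
  set l : ℝ := lc (f x₀) with hl
  have hl0p : 0 < l := lt_of_lt_of_le one_pos hl0
  rw [hprod] at hMf0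
  have hlT' : l * (max 1 ‖e 0 x₀‖ * max 1 ‖e 1 x₀‖ * max 1 ‖e 2 x₀‖) ≤ T := hMf0 ▸ hM0
  have hm0 : 1 ≤ max 1 ‖e 0 x₀‖ := le_max_left _ _
  have hm1 : 1 ≤ max 1 ‖e 1 x₀‖ := le_max_left _ _
  have hm2 : 1 ≤ max 1 ‖e 2 x₀‖ := le_max_left _ _
  have hlT : l ≤ T := by
    refine le_trans ?_ hlT'
    have : 1 ≤ max 1 ‖e 0 x₀‖ * max 1 ‖e 1 x₀‖ * max 1 ‖e 2 x₀‖ :=
      one_le_mul_of_one_le_of_one_le (one_le_mul_of_one_le_of_one_le hm0 hm1) hm2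
    nlinarith
  have hθT : ∀ i, ‖e i x₀‖ ≤ T := by
    have k0 : ‖e 0 x₀‖ ≤ T := by
      calc ‖e 0 x₀‖ ≤ 1 * (max 1 ‖e 0 x₀‖ * 1 * 1) := by
            rw [one_mul, mul_one, mul_one]
            exact le_max_right _ _
        _ ≤ l * (max 1 ‖e 0 x₀‖ * max 1 ‖e 1 x₀‖ * max 1 ‖e 2 x₀‖) := by gcongr
        _ ≤ T := hlT'
    have k1 : ‖e 1 x₀‖ ≤ T := by
      calc ‖e 1 x₀‖ ≤ 1 * (1 * max 1 ‖e 1 x₀‖ * 1) := by
            rw [one_mul, mul_one, one_mul]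
            exact le_max_right _ _
        _ ≤ l * (max 1 ‖e 0 x₀‖ * max 1 ‖e 1 x₀‖ * max 1 ‖e 2 x₀‖) := by gcongr
        _ ≤ T := hlT'
    have k2 : ‖e 2 x₀‖ ≤ T := by
      calc ‖e 2 x₀‖ ≤ 1 * (1 * 1 * max 1 ‖e 2 x₀‖) := by
            rw [one_mul, mul_one, one_mul]
            exact le_max_right _ _
        _ ≤ l * (max 1 ‖e 0 x₀‖ * max 1 ‖e 1 x₀‖ * max 1 ‖e 2 x₀‖) := by gcongr
        _ ≤ T := hlT'
    intro i
    fin_cases i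
    · exact k0
    · exact k1
    · exact k2
  have hdT : ∀ i j, ‖e i x₀ - e j x₀‖ ≤ 2 * T := fun i j =>
    (norm_sub_le _ _).trans (by linarith [hθT i, hθT j])
  have hθne : ∀ i j, i ≠ j → e i x₀ ≠ e j x₀ := fun i j hij h => hij (e.injective (hinj0 h))
  have hθp : ∀ i j, i ≠ j → 0 < ‖e i x₀ - e j x₀‖ := fun i j hij =>
    norm_pos_iff.2 (sub_ne_zero.2 (hθne i j hij))
  set a : ℝ := ‖e 0 x₀ - e 1 x₀‖ with ha
  set b : ℝ := ‖e 0 x₀ - e 2 x₀‖ with hb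
  set c : ℝ := ‖e 1 x₀ - e 2 x₀‖ with hc
  have ha0 : 0 < a := hθp 0 1 (by decide)
  have hb0 : 0 < b := hθp 0 2 (by decide)
  have hc0 : 0 < c := hθp 1 2 (by decide)
  have hD' : |(D3 (f x₀) : ℝ)| = (l ^ 2 * (a * b * c)) ^ 2 := by
    rw [hD1]
    ring
  have hsq : Real.sqrt |(D3 (f x₀) : ℝ)| = l ^ 2 * (a * b * c) := by
    rw [hD', Real.sqrt_sq (by positivity)]
  have hDge : 1 ≤ l ^ 2 * (a * b * c) := by
    rw [← hsq]
    exact Real.one_le_sqrt.2 hD2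
  -- the matrices
  have hex : ∀ x : K, ∃ v : ℤ × ℤ × ℤ × ℤ, x ∈ F → v.1 * v.2.2.2 - v.2.1 * v.2.2.1 = 1 ∧
      x = ((v.1 : K) * x₀ + v.2.1) / (v.2.2.1 * x₀ + v.2.2.2) := by
    intro x
    by_cases hx : x ∈ F
    · obtain ⟨-, -, -, p, q, r, t, h1, -, h2⟩ := hF x hx
      exact ⟨(p, q, r, t), fun _ => ⟨h1, h2⟩⟩
    · exact ⟨(0, 0, 0, 0), fun h => absurd h hx⟩
  choose v hv using hex
  set y : K → Fin 3 → ℝ := fun x i => ‖((v x).2.2.1 : ℂ) * e i x₀ + (v x).2.2.2‖ with hy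
  have hpt := fun x (hx : x ∈ F) => pt_data hmin hmob hK e (x₀ := x₀) (x := x) (f₀ := f x₀) (f := f x)
    (n := n) (T := T) hf0 (hF x hx).1 (hF x hx).2.1 (hF x hx).2.2.1 (hv x hx).1 (hv x hx).2
  have hN1 : (1 : ℝ) ≤ (n : ℝ) + 1 := by
    have : (0 : ℝ) ≤ n := Nat.cast_nonneg n
    linarith
  set Λ : Finset (Fin 3 → ℤ) := Fintype.piFinset (fun _ => Finset.Icc (-(m : ℤ)) m) with hΛ
  set lab : K → Fin 3 → ℤ := fun x i => Int.log 2 (y x i) with hlab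
  have hmaps : ∀ x ∈ F, lab x ∈ Λ := by
    intro x hx
    rw [hΛ, Fintype.mem_piFinset]
    obtain ⟨g1, g2, g3, g4, g5, g6, g7, g8⟩ := hpt x hx
    obtain ⟨u0, u1, u2⟩ := ybd hN1 hT hl0 hlT ha0 hb0 hc0 (hdT 0 1) (hdT 0 2) (hdT 1 2) hDge (g1 0) (g1 1) (g1 2)
      g2 g4 g5 g6 g8
    have hu : ∀ i, 1 ≤ 32 * ((n : ℝ) + 1) ^ 2 * T ^ 11 * y x i ∧ y x i ≤ 32 * ((n : ℝ) + 1) ^ 2 * T ^ 11 := by
      intro i
      fin_cases i
      · exact u0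
      · exact u1
      · exact u2
    intro i
    have hyi : 0 < y x i := g1 i
    obtain ⟨w1, w2⟩ := hu i
    have w3 : y x i ≤ ((2 : ℕ) : ℝ) ^ (m : ℤ) := by
      rw [zpow_natCast]
      exact_mod_cast w2.trans hm
    have w4 : ((2 : ℕ) : ℝ) ^ (-(m : ℤ)) ≤ y x i := by
      rw [zpow_neg, zpow_natCast, inv_le_iff_one_le_mul₀ (by positivity)]
      calc 1 ≤ 32 * ((n : ℝ) + 1) ^ 2 * T ^ 11 * y x i := w1
        _ ≤ 2 ^ m * y x i := by gcongr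
        _ = _ := by push_cast; ring
    rw [Finset.mem_Icc]
    constructor
    · calc -(m : ℤ) = Int.log 2 (((2 : ℕ) : ℝ) ^ (-(m : ℤ))) := (Int.log_zpow (by norm_num) _).symm
        _ ≤ _ := Int.log_mono_right (by positivity) w4
    · calc Int.log 2 (y x i) ≤ Int.log 2 (((2 : ℕ) : ℝ) ^ (m : ℤ)) := Int.log_mono_right hyi w3
        _ = m := Int.log_zpow (by norm_num) _
  have hcell : ∀ κ ∈ Λ, ∑ x ∈ F.filter (fun x => lab x = κ), 1 / dv (f x) (e 0 x) ≤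
      192 * (4 * n + 1) * ((n : ℝ) + 1 + 4) * T / (l ^ 2 * (a * b * c)) := by
    intro κ _
    set G : Finset K := F.filter (fun x => lab x = κ) with hG
    have hGF : ∀ x ∈ G, x ∈ F := fun x hx => (Finset.mem_filter.1 hx).1
    rcases G.eq_empty_or_nonempty with h0 | ⟨x1, hx1⟩
    · rw [h0, Finset.sum_empty]
      positivity
    set Y : Fin 3 → ℝ := fun i => ((2 : ℕ) : ℝ) ^ (κ i) with hYd
    have hY : ∀ i, 0 < Y i := fun i => by positivity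
    have hlow : ∀ x ∈ G, ∀ i, Y i ≤ y x i := by
      intro x hx i
      have h1 : lab x = κ := (Finset.mem_filter.1 hx).2
      have h2 : 0 < y x i := (hpt x (hGF x hx)).1 i
      rw [hYd, ← h1]
      exact Int.zpow_log_le_self (by norm_num) h2
    have hupp : ∀ x ∈ G, ∀ i, y x i ≤ 2 * Y i := by
      intro x hx i
      have h1 : lab x = κ := (Finset.mem_filter.1 hx).2
      have h2 : y x i < ((2 : ℕ) : ℝ) ^ (Int.log 2 (y x i) + 1) := Int.lt_zpow_succ_log_self (by norm_num) _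
      rw [hYd, ← h1]
      refine h2.le.trans (le_of_eq ?_)
      rw [zpow_add₀ (by norm_num), zpow_one, mul_comm]
      norm_num
      rfl
    have hk : ∀ j : Fin 3, j ≠ 0 → (G.card : ℝ) ≤ (4 * n + 1) * (24 * (1 + 4 * (Y 0 * Y j) / ‖e 0 x₀ - e j x₀‖)) := by
      intro j hj
      exact card_cell hcnt e n G (fun x => (v x).1) (fun x => (v x).2.1) (fun x => (v x).2.2.1)
        (fun x => (v x).2.2.2) Y hY (fun x hx => (hF x (hGF x hx)).2.2.1)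
        (fun x hx => (hv x (hGF x hx)).1) (fun x hx => (hpt x (hGF x hx)).1)
        (fun x hx => (hv x (hGF x hx)).2) hupp j (hθne 0 j hj.symm)
    have hsum : ∑ x ∈ G, 1 / dv (f x) (e 0 x) ≤ G.card * (2 * Y 0 / (l * a * b)) := by
      rw [← nsmul_eq_mul]
      apply Finset.sum_le_card_nsmul
      intro x hx
      obtain ⟨-, -, -, -, -, -, g7, -⟩ := hpt x (hGF x hx)
      rw [g7]
      have := hupp x hx 0
      apply div_le_div_of_nonneg_right this (by positivity)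
    refine hsum.trans ?_
    obtain ⟨g1, g2, g3, g4, g5, g6, g7, g8⟩ := hpt x1 (hGF x1 hx1)
    have hκ0 : (0 : ℝ) ≤ 4 * n + 1 := by positivity
    have hk0 : (0 : ℝ) ≤ G.card := Nat.cast_nonneg _
    exact cell_real (κ := 4 * (n : ℝ) + 1) (k := (G.card : ℝ)) hN1 hT hl0 ha0 hb0 hc0 (hY 0) (hY 1) (hY 2) (hlow x1 hx1 0) (hlow x1 hx1 1) (hlow x1 hx1 2)
      (hupp x1 hx1 1) (hupp x1 hx1 2) g3 g4 g5 g8 hκ0 hk0 (hk 1 (by decide))
      (hk 2 (by decide))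
  rw [← Finset.sum_fiberwise_of_maps_to hmaps, hsq]
  have hcardΛ : (Λ.card : ℝ) = ((2 * m + 1 : ℕ) : ℝ) ^ 3 := by
    rw [hΛ, Fintype.card_piFinset]
    simp only [Finset.prod_const, Finset.card_univ, Fintype.card_fin]
    rw [Int.card_Icc]
    push_cast
    congr 1
    have : ((m : ℤ) + 1 - -(m : ℤ)).toNat = 2 * m + 1 := by omega
    rw [this]
    push_cast
    ring
  calc ∑ κ ∈ Λ, ∑ x ∈ F.filter (fun x => lab x = κ), 1 / dv (f x) (e 0 x)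
      ≤ Λ.card • (192 * (4 * n + 1) * ((n : ℝ) + 1 + 4) * T / (l ^ 2 * (a * b * c))) :=
        Finset.sum_le_card_nsmul _ _ _ hcell
    _ = ((2 * m + 1 : ℕ) : ℝ) ^ 3 * (192 * (4 * n + 1) * ((n : ℝ) + 1 + 4) * T / (l ^ 2 * (a * b * c))) := by
        rw [nsmul_eq_mul, hcardΛ]
    _ ≤ (C * T ^ ε) * (192 * (4 * n + 1) * ((n : ℝ) + 1 + 4) * T / (l ^ 2 * (a * b * c))) := by
        gcongr
    _ = _ := by
        rw [Real.rpow_add hT0, Real.rpow_one]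
        ring

/-- **SHELL** -/
theorem shell (hmin : S_MIN) (henum : S_ENUM) (hmob : S_MOB) (_hdlow : S_DLOW) (hcnt : S_CNT)
    (hdrt : S_DRT) : S_SHELL :=
  shell' hmin henum hmob hcnt hdrt

end Pool.Agent.Q190.V
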